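import Mathlib

/-!
# Unique games and the long code game

Definitions only.
-/

namespace Pool.Agent.P325f1f.Dich

/-- A bipartite unique game with sides `U`, `W`, label set `Ω` and edges indexed by `ι`: the edge `e`
joins `src e` to `dst e` and carries the constraint permutation `perm e`. -/
structure Game (U W Ω ι : Type) where
  /-- the left end of an edge -/
  src : ι → U
  /-- the right end of an edge -/
  dst : ι → W
  /-- the constraint permutation of an edge -/
  perm : ι → Equiv.Perm Ω

/-- The fraction of edges `e` that the labeling `(x, y)` satisfies: `perm e (x (src e)) = y (dst e)`. -/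
noncomputable def Game.satFrac {U W Ω ι : Type} [Fintype ι] (I : Game U W Ω ι)
    (x : U → Ω) (y : W → Ω) : ℝ := by
  classical
  exact ((Finset.univ.filter (fun e => I.perm e (x (I.src e)) = y (I.dst e))).card : ℝ) /
    (Fintype.card ι : ℝ)

/-- The value of a unique game: the supremum over all labelings of the fraction of satisfied
edges. -/
noncomputable def Game.value {U W Ω ι : Type} [Fintype ι] (I : Game U W Ω ι) : ℝ :=
  ⨆ p : (U → Ω) × (W → Ω), I.satFrac p.1 p.2

/-- Replace the coordinates of `x` with mark `0` by those given by `s`. -/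
def mix {Λ Ω : Type} {t : ℕ} (x : Λ → Ω) (s : Λ → Fin t × Ω) : Λ → Ω :=
  fun i => if (s i).1.val = 0 then (s i).2 else x i

/-- The long code game of `I` played with the permutations `σ`: for every edge `e` of `I`, every
`k`, every `x : Λ → Ω` and every `s : Λ → Fin t × Ω` it has an edge from
`(src e, x)` to `(dst e, z)` with constraint `σ k`, where `z` is `mix x s` carried over by the
constraint of `e`, with `σ k` applied to every coordinate. -/
def longGame {U W Λ ι Ω κ : Type} (t : ℕ) (σ : κ → Equiv.Perm Ω) (I : Game U W Λ ι) :
    Game (U × (Λ → Ω)) (W × (Λ → Ω)) Ω (ι × κ × (Λ → Ω) × (Λ → Fin t × Ω)) where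
  src p := (I.src p.1, p.2.2.1)
  dst p := (I.dst p.1,
    fun i => σ p.2.1 (mix p.2.2.1 p.2.2.2 ((I.perm p.1).symm i)))
  perm p := σ p.2.1

/-- The restriction of a game to a set of edges. -/
def Game.restrict {U W Ω ι : Type} (I : Game U W Ω ι) (E : Finset ι) : Game U W Ω E where
  src e := I.src e.1
  dst e := I.dst e.1
  perm e := I.perm e.1

end Pool.Agent.P325f1f.Dich
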