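import Pool.Agent.Lib.P325f1f.Dich.Light

/-!
# The noise test, invariance of the influences, choice of the parameters
-/

set_option autoImplicit false
set_option linter.unusedSectionVars false

open Finset
open scoped BigOperators

namespace Pool.Agent.P325f1f.Dich

theorem expect_pair {α β : Type} [Fintype α] [Fintype β] (f : α × β → ℝ) :
    (𝔼 p, f p) = 𝔼 a, 𝔼 b, f (a, b) := by
  rw [← Finset.expect_product, Finset.univ_product_univ]

theorem expect_fin (t : ℕ) (ht : 1 ≤ t) (c d : ℝ) :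
    (𝔼 k : Fin t, if k.val = 0 then c else d) = c / t + d * (1 - 1 / (t : ℝ)) := by
  obtain ⟨s, rfl⟩ : ∃ s, t = s + 1 := ⟨t - 1, by omega⟩
  rw [Fintype.expect_eq_sum_div_card, Fin.sum_univ_succ]
  have h0 : ((s + 1 : ℕ) : ℝ) ≠ 0 := by positivity
  simp only [Fin.val_zero, if_true, Fin.val_succ, Nat.succ_ne_zero, if_false, Finset.sum_const,
    Finset.card_univ, Fintype.card_fin, nsmul_eq_mul]
  push_cast at h0 ⊢
  field_simp
  ring

variable {X : Type} [Fintype X] [DecidableEq X] {o : X}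
variable {Λ : Type} [Fintype Λ] [DecidableEq Λ] {Ω : Type} [Fintype Ω]

theorem expect_coord {Y : Type} [Fintype Y] [Nonempty Y] (i : Λ) (f : Y → ℝ) :
    (𝔼 s : Λ → Y, f (s i)) = 𝔼 y, f y := by
  have h1 : ∀ s : Λ → Y, f (s i) = ∏ j, (if j = i then f (s j) else 1) := by
    intro s
    rw [Finset.prod_ite_eq' univ i (fun j => f (s j)), if_pos (mem_univ i)]
  simp_rw [h1]
  rw [expect_prod (fun j y => if j = i then f y else 1), Finset.prod_eq_single i]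
  · simp
  · intro j _ hj
    simp_rw [if_neg hj]
    exact Fintype.expect_const 1
  · intro h
    exact absurd (mem_univ i) h

theorem noise (Φ : Sys X o) (t : ℕ) (ht : 1 ≤ t) (H K : (Λ → X) → ℝ) :
    (𝔼 x, 𝔼 s : Λ → Fin t × X, H x * K (fun i => if (s i).1.val = 0 then (s i).2 else x i)) =
      ∑ α, (1 - 1 / (t : ℝ)) ^ (supp o α).card *
        ((Φ.pi Λ).coef H α * (Φ.pi Λ).coef K α) := by
  have hne : Nonempty X := ⟨o⟩
  have h1 : ∀ (x : Λ → X) (α : Λ → X), (𝔼 s : Λ → Fin t × X,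
      (Φ.pi Λ).φ α (fun i => if (s i).1.val = 0 then (s i).2 else x i)) =
      (1 - 1 / (t : ℝ)) ^ (supp o α).card * (Φ.pi Λ).φ α x := by
    intro x α
    simp_rw [Φ.pi_φ]
    rw [expect_prod (fun i (p : Fin t × X) => Φ.φ (α i) (if p.1.val = 0 then p.2 else x i))]
    have h2 : ∀ i, (𝔼 p : Fin t × X, Φ.φ (α i) (if p.1.val = 0 then p.2 else x i)) =
        (if α i ≠ o then (1 - 1 / (t : ℝ)) else 1) * Φ.φ (α i) (x i) := by
      intro i
      rw [expect_pair]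
      have h3 : ∀ k : Fin t, (𝔼 z, Φ.φ (α i) (if k.val = 0 then z else x i)) =
          if k.val = 0 then (𝔼 z, Φ.φ (α i) z) else Φ.φ (α i) (x i) := by
        intro k
        split_ifs
        · rfl
        · exact Fintype.expect_const _
      simp only [h3]
      rw [expect_fin t ht]
      have h4 : (𝔼 z, Φ.φ (α i) z) = if α i = o then 1 else 0 := by
        rw [← Φ.orth' (α i) o]
        exact Finset.expect_congr rfl (fun z _ => by rw [Φ.one, mul_one])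
      rw [h4]
      by_cases ho : α i = o
      · rw [if_pos ho, if_neg (by simp [ho]), ho, Φ.one]
        ring
      · rw [if_neg ho, if_pos ho]
        ring
    simp_rw [h2]
    rw [Finset.prod_mul_distrib]
    congr 1
    rw [supp, ← Finset.prod_filter, Finset.prod_const]
  have h5 : ∀ x, (𝔼 s : Λ → Fin t × X, H x * K (fun i => if (s i).1.val = 0 then (s i).2 else x i)) =
      H x * ∑ α, (1 - 1 / (t : ℝ)) ^ (supp o α).card * (Φ.pi Λ).coef K α * (Φ.pi Λ).φ α x := by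
    intro x
    rw [← Finset.mul_expect]
    congr 1
    have h6 : ∀ s : Λ → Fin t × X, K (fun i => if (s i).1.val = 0 then (s i).2 else x i) =
        ∑ α, (Φ.pi Λ).coef K α * (Φ.pi Λ).φ α (fun i => if (s i).1.val = 0 then (s i).2 else x i) :=
      fun s => (Φ.pi Λ).expand K _
    simp_rw [h6]
    rw [Finset.expect_sum_comm]
    refine Finset.sum_congr rfl (fun α _ => ?_)
    rw [← Finset.mul_expect, h1]
    ring
  simp_rw [h5]
  rw [(Φ.pi Λ).parseval]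
  refine Finset.sum_congr rfl (fun α _ => ?_)
  rw [(Φ.pi Λ).coef_ofCoef (fun α => (1 - 1 / (t : ℝ)) ^ (supp o α).card * (Φ.pi Λ).coef K α)]
  ring

theorem coef_perm (Φ : Sys X o) (σ : Equiv.Perm Λ) (f : (Λ → X) → ℝ) (α : Λ → X) :
    (Φ.pi Λ).coef (fun x => f (fun i => x (σ.symm i))) α =
      (Φ.pi Λ).coef f (fun i => α (σ.symm i)) := by
  rw [Sys.coef, Sys.coef]
  refine Fintype.expect_equiv (Equiv.arrowCongr σ (Equiv.refl X)) _ _ (fun x => ?_)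
  have h1 : (Equiv.arrowCongr σ (Equiv.refl X)) x = fun i => x (σ.symm i) := by
    funext i
    rfl
  rw [h1]
  congr 1
  rw [Φ.pi_φ, Φ.pi_φ]
  exact (Equiv.prod_comp σ.symm (fun i => Φ.φ (α i) (x i))).symm

theorem card_supp_perm (σ : Equiv.Perm Λ) (α : Λ → X) :
    (supp o (fun i => α (σ.symm i))).card = (supp o α).card := by
  refine (Finset.card_bij' (fun i _ => σ i) (fun i _ => σ.symm i) ?_ ?_ ?_ ?_).symm
  · intro i hi
    rw [mem_supp] at hi ⊢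
    simpa using hi
  · intro i hi
    rw [mem_supp] at hi ⊢
    exact hi
  · intro i _
    simp
  · intro i _
    simp

theorem JJ_perm (Φ : Sys X o) (D : ℕ) (σ : Equiv.Perm Λ) (g : Ω → (Λ → X) → ℝ) (i : Λ) :
    JJ Φ D (fun ω x => g ω (fun i => x (σ.symm i))) i = JJ Φ D g (σ i) := by
  unfold JJ
  refine Finset.sum_congr rfl (fun ω _ => ?_)
  rw [Finset.sum_filter, Finset.sum_filter]
  refine Fintype.sum_equiv (Equiv.arrowCongr σ (Equiv.refl X)) _ _ (fun α => ?_)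
  have h1 : (Equiv.arrowCongr σ (Equiv.refl X)) α = fun i => α (σ.symm i) := by
    funext i
    rfl
  rw [h1, coef_perm, card_supp_perm]
  simp

/-- The weight of `f` on the level `A`. -/
noncomputable def lev (Φ : Sys X o) (f : (Λ → X) → ℝ) (A : Finset Λ) : ℝ :=
  ∑ α with supp o α = A, (Φ.pi Λ).coef f α ^ 2

theorem sum_lev (Φ : Sys X o) (f : (Λ → X) → ℝ) (A : Finset Λ) :
    ∑ B ∈ A.powerset, lev Φ f B = 𝔼 x, avg (univ \ A) f x ^ 2 := by
  rw [(Φ.pi Λ).parseval_sq]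
  have h1 : ∀ α, (Φ.pi Λ).coef (avg (univ \ A) f) α ^ 2 =
      if supp o α ∈ A.powerset then (Φ.pi Λ).coef f α ^ 2 else 0 := by
    intro α
    rw [coef_avg]
    have h2 : Disjoint (univ \ A) (supp o α) ↔ supp o α ∈ A.powerset := by
      rw [Finset.mem_powerset, Finset.disjoint_left]
      constructor
      · intro h i hi
        by_contra hA
        exact h (Finset.mem_sdiff.2 ⟨mem_univ i, hA⟩) hi
      · intro h i hi hi'
        exact (Finset.mem_sdiff.1 hi).2 (h hi')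
    by_cases h : Disjoint (univ \ A) (supp o α)
    · rw [if_pos h, if_pos (h2.1 h)]
    · rw [if_neg h, if_neg (fun h' => h (h2.2 h')), zero_pow two_ne_zero]
  simp_rw [h1]
  rw [← Finset.sum_filter]
  unfold lev
  rw [← Finset.sum_fiberwise_of_maps_to (s := univ.filter (fun α => supp o α ∈ A.powerset))
    (t := A.powerset) (g := fun α => supp o α) (fun α hα => (Finset.mem_filter.1 hα).2)]
  refine Finset.sum_congr rfl (fun B hB => Finset.sum_congr ?_ (fun _ _ => rfl))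
  ext α
  simp only [Finset.mem_filter, mem_univ, true_and]
  constructor
  · intro h
    exact ⟨by rw [h]; exact hB, h⟩
  · intro h
    exact h.2

theorem avg_alpha (τ : Equiv.Perm X) (B : Finset Λ) (f : (Λ → X) → ℝ) (x : Λ → X) :
    avg B (fun y => f (fun i => τ (y i))) x = avg B f (fun i => τ (x i)) := by
  rw [avg, avg]
  refine Fintype.expect_equiv (Equiv.arrowCongr (Equiv.refl Λ) τ) _ _ (fun z => ?_)
  congr 1
  funext i
  by_cases hi : i ∈ B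
  · rw [Finset.piecewise_eq_of_mem _ _ _ hi, Finset.piecewise_eq_of_mem _ _ _ hi]
    rfl
  · rw [Finset.piecewise_eq_of_notMem _ _ _ hi, Finset.piecewise_eq_of_notMem _ _ _ hi]

theorem lev_alpha (Φ : Sys X o) (τ : Equiv.Perm X) (f : (Λ → X) → ℝ) (A : Finset Λ) :
    lev Φ (fun y => f (fun i => τ (y i))) A = lev Φ f A := by
  induction A using Finset.strongInduction with
  | H A ih =>
    have h1 := sum_lev Φ (fun y => f (fun i => τ (y i))) A
    have h2 := sum_lev Φ f A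
    have h3 : (𝔼 x, avg (univ \ A) (fun y => f (fun i => τ (y i))) x ^ 2) =
        𝔼 x, avg (univ \ A) f x ^ 2 := by
      simp_rw [avg_alpha]
      refine Fintype.expect_equiv (Equiv.arrowCongr (Equiv.refl Λ) τ) _ _ (fun z => ?_)
      rfl
    rw [h3, ← h2] at h1
    rw [← Finset.sum_erase_add _ _ (Finset.mem_powerset_self A),
      ← Finset.sum_erase_add _ _ (Finset.mem_powerset_self A)] at h1
    have h4 : ∑ B ∈ A.powerset.erase A, lev Φ (fun y => f (fun i => τ (y i))) B =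
        ∑ B ∈ A.powerset.erase A, lev Φ f B := by
      refine Finset.sum_congr rfl (fun B hB => ih B ?_)
      rw [Finset.mem_erase, Finset.mem_powerset] at hB
      exact lt_of_le_of_ne hB.2 hB.1
    linarith

theorem JJ_lev (Φ : Sys X o) (D : ℕ) (h : Ω → (Λ → X) → ℝ) (i : Λ) :
    JJ Φ D h i = ∑ ω, ∑ A : Finset Λ, if i ∈ A ∧ A.card ≤ D then lev Φ (h ω) A else 0 := by
  unfold JJ lev
  refine Finset.sum_congr rfl (fun ω _ => ?_)
  rw [Finset.sum_filter, ← Finset.sum_fiberwise (s := univ) (g := fun α : Λ → X => supp o α)]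
  refine Finset.sum_congr rfl (fun A _ => ?_)
  by_cases hA : i ∈ A ∧ A.card ≤ D
  · rw [if_pos hA]
    refine Finset.sum_congr rfl (fun α hα => ?_)
    have h1 := (Finset.mem_filter.1 hα).2
    rw [if_pos]
    rw [← mem_supp, h1]
    exact hA
  · rw [if_neg hA]
    refine Finset.sum_eq_zero (fun α hα => ?_)
    have h1 := (Finset.mem_filter.1 hα).2
    rw [if_neg]
    rw [← mem_supp, h1]
    exact hA

theorem JJ_alpha (Φ : Sys X o) (D : ℕ) (τ : Equiv.Perm X) (g : Ω → (Λ → X) → ℝ) (i : Λ) :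
    JJ Φ D (fun ω x => g ω (fun i => τ (x i))) i = JJ Φ D g i := by
  rw [JJ_lev, JJ_lev]
  simp_rw [lev_alpha]

theorem JJ_label (Φ : Sys X o) (D : ℕ) (τ : Equiv.Perm Ω) (g : Ω → (Λ → X) → ℝ) (i : Λ) :
    JJ Φ D (fun ω => g (τ ω)) i = JJ Φ D g i := by
  unfold JJ
  exact Equiv.sum_comp τ (fun ω => ∑ α with α i ≠ o ∧ (supp o α).card ≤ D,
    (Φ.pi Λ).coef (g ω) α ^ 2)

/-- The influences of a transported partition. -/
theorem JJ_move (Φ : Sys X o) (D : ℕ) (τ : Equiv.Perm X) (τ' : Equiv.Perm Ω)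
    (σ : Equiv.Perm Λ) (g : Ω → (Λ → X) → ℝ) (i : Λ) :
    JJ Φ D (fun ω x => g (τ' ω) (fun i => τ (x (σ.symm i)))) i = JJ Φ D g (σ i) := by
  rw [JJ_label Φ D τ' (fun ω x => g ω (fun i => τ (x (σ.symm i)))),
    JJ_perm Φ D σ (fun ω x => g ω (fun i => τ (x i))), JJ_alpha]

/-- The mean of a transported function. -/
theorem mean_move (τ : Equiv.Perm X) (σ : Equiv.Perm Λ) (g : (Λ → X) → ℝ) :
    (𝔼 x : Λ → X, g (fun i => τ (x (σ.symm i)))) = 𝔼 x, g x := by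
  refine Fintype.expect_equiv (Equiv.arrowCongr σ τ) _ _ (fun x => ?_)
  rfl

/-- Choice of the parameters. -/
theorem params (t n : ℕ) (ht : 1 ≤ t) (β : ℝ) (hβ0 : 0 < β) :
    ∃ (D : ℕ) (τ τ' : ℝ), 0 < τ' ∧ τ' ≤ τ ∧ (1 / 2) ^ D ≤ β ^ t ∧
      (1 + n : ℝ) ^ D * τ ≤ 15 * β ^ (4 * t) ∧
      D / τ * τ' + (1 - 1 / (t : ℝ)) ^ (2 * D) ≤ β ^ 2 / 4 := by
  have ht0 : (0 : ℝ) < t := by exact_mod_cast ht
  set ρ : ℝ := 1 - 1 / (t : ℝ) with hρ
  have hρ1 : ρ < 1 := by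
    have : 0 < 1 / (t : ℝ) := by positivity
    linarith
  have hρ0 : 0 ≤ ρ := by
    have : 1 / (t : ℝ) ≤ 1 := by
      rw [div_le_one ht0]
      exact_mod_cast ht
    linarith
  obtain ⟨D1, hD1⟩ := exists_pow_lt_of_lt_one (pow_pos hβ0 t) (by norm_num : (1 / 2 : ℝ) < 1)
  obtain ⟨D2, hD2⟩ := exists_pow_lt_of_lt_one (by positivity : 0 < β ^ 2 / 8) hρ1
  set D : ℕ := max D1 D2 with hD
  have e1 : (1 / 2 : ℝ) ^ D ≤ β ^ t :=
    (pow_le_pow_of_le_one (by norm_num) (by norm_num) (le_max_left _ _)).trans hD1.le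
  have e2 : ρ ^ (2 * D) ≤ β ^ 2 / 8 := by
    refine le_trans (pow_le_pow_of_le_one hρ0 hρ1.le ?_) hD2.le
    have := le_max_right D1 D2
    omega
  have hN : (0 : ℝ) < (1 + n : ℝ) ^ D := by positivity
  set τ : ℝ := 15 * β ^ (4 * t) / (1 + n : ℝ) ^ D with hτ
  have hτ0 : 0 < τ := by positivity
  refine ⟨D, τ, min τ (τ * β ^ 2 / (8 * (D + 1))), ?_, min_le_left _ _, e1, ?_, ?_⟩
  · exact lt_min hτ0 (by positivity)
  · rw [hτ, mul_div_cancel₀ _ hN.ne']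
  · have e3 : (D : ℝ) / τ * min τ (τ * β ^ 2 / (8 * (D + 1))) ≤ β ^ 2 / 8 := by
      have e4 : (D : ℝ) / τ * min τ (τ * β ^ 2 / (8 * (D + 1))) ≤
          D / τ * (τ * β ^ 2 / (8 * (D + 1))) :=
        mul_le_mul_of_nonneg_left (min_le_right _ _) (by positivity)
      refine e4.trans ?_
      have e5 : (D : ℝ) / τ * (τ * β ^ 2 / (8 * (D + 1))) = (D / (D + 1)) * (β ^ 2 / 8) := by
        field_simp
      rw [e5]
      have e6 : (D : ℝ) / (D + 1) ≤ 1 := by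
        rw [div_le_one (by positivity)]
        linarith
      have : 0 ≤ β ^ 2 / 8 := by positivity
      nlinarith
    linarith

/-- The acceptance of two partitions without common influential coordinate. -/
theorem accept (Φ : Sys X o) (D : ℕ) {h g : Ω → (Λ → X) → ℝ} (h0 : ∀ ω x, 0 ≤ h ω x)
    (hs : ∀ x, ∑ ω, h ω x = 1) (g0 : ∀ ω x, 0 ≤ g ω x)
    (gs : ∀ x, ∑ ω, g ω x = 1) (t : ℕ) (ht : 1 ≤ t) (θ : ℝ) (hθ : 0 < θ)
    (τ τ' : ℝ) (hτ0 : 0 < τ) (hτ' : τ' ≤ τ) (hτ'0 : 0 ≤ τ')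
    (hD : (1 / 2) ^ D ≤ (θ ^ 2) ^ t)
    (hτD : (1 + Fintype.card X : ℝ) ^ D * τ ≤ 15 * (θ ^ 2) ^ (4 * t))
    (hsm : D / τ * τ' + (1 - 1 / (t : ℝ)) ^ (2 * D) ≤ (θ ^ 2) ^ 2 / 4)
    (hno : ∀ i, JJ Φ D h i < τ' ∨ JJ Φ D g i < τ') :
    ∑ ω, ∑ α, (1 - 1 / (t : ℝ)) ^ (supp o α).card *
      ((Φ.pi Λ).coef (h ω) α * (Φ.pi Λ).coef (g ω) α) ≤ 4 * θ + θ ^ 2 +
      ∑ ω, (𝔼 x, h ω x) * if (θ ^ 2) ^ (4 * t) < (𝔼 x, g ω x) then 1 else 0 := by
  classical
  set η : ℝ := (θ ^ 2) ^ (4 * t) with hη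
  have hne : Nonempty (Fin t × X) := ⟨(⟨0, ht⟩, o)⟩
  have hneX : Nonempty X := ⟨o⟩
  set F : Ω → ℝ := fun ω => ∑ α, (1 - 1 / (t : ℝ)) ^ (supp o α).card *
      ((Φ.pi Λ).coef (h ω) α * (Φ.pi Λ).coef (g ω) α) with hF
  have l1 := light Φ D h0 hs g0 gs t ht θ hθ (univ.filter (fun ω => (𝔼 x, h ω x) ≤ η))
    (fun ω hω => (Finset.mem_filter.1 hω).2) τ τ' hτ0 hτ' hτ'0 hD hτD hsm hno
  have l2 := light Φ D g0 gs h0 hs t ht θ hθ
    (univ.filter (fun ω => ¬ (𝔼 x, h ω x) ≤ η ∧ (𝔼 x, g ω x) ≤ η))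
    (fun ω hω => (Finset.mem_filter.1 hω).2.2) τ τ' hτ0 hτ' hτ'0 hD hτD hsm
    (fun i => (hno i).symm)
  have l2' : ∑ ω with (¬ (𝔼 x, h ω x) ≤ η ∧ (𝔼 x, g ω x) ≤ η), F ω ≤ 2 * θ + θ ^ 2 / 2 := by
    refine le_trans (le_of_eq ?_) l2
    refine Finset.sum_congr rfl (fun ω _ => Finset.sum_congr rfl (fun α _ => ?_))
    rw [mul_comm ((Φ.pi Λ).coef (h ω) α)]
  have hbd : ∀ ω, F ω ≤ 𝔼 x, h ω x := by
    intro ω
    rw [hF]
    beta_reduce
    rw [← noise Φ t ht]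
    refine Finset.expect_le_expect (fun x _ => ?_)
    refine Finset.expect_le Finset.univ_nonempty (fun s _ => ?_)
    have e1 := le_one_of_sum g0 gs ω (fun i => if (s i).1.val = 0 then (s i).2 else x i)
    calc h ω x * _ ≤ h ω x * 1 := mul_le_mul_of_nonneg_left e1 (h0 ω x)
      _ = h ω x := mul_one _
  have hpt : ∀ ω, F ω ≤ (if (𝔼 x, h ω x) ≤ η then F ω else 0) +
      (if (¬ (𝔼 x, h ω x) ≤ η ∧ (𝔼 x, g ω x) ≤ η) then F ω else 0) +
      (𝔼 x, h ω x) * if η < (𝔼 x, g ω x) then 1 else 0 := by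
    intro ω
    have e0 : 0 ≤ 𝔼 x, h ω x := Finset.expect_nonneg (fun x _ => h0 ω x)
    have e1 := hbd ω
    by_cases a1 : (𝔼 x, h ω x) ≤ η
    · rw [if_pos a1, if_neg (fun h => h.1 a1)]
      have : 0 ≤ (𝔼 x, h ω x) * if η < (𝔼 x, g ω x) then (1 : ℝ) else 0 := by
        split_ifs
        · linarith
        · simp
      linarith
    · by_cases a2 : (𝔼 x, g ω x) ≤ η
      · rw [if_neg a1, if_pos ⟨a1, a2⟩, if_neg (not_lt.2 a2)]
        linarith
      · rw [if_neg a1, if_neg (fun h => a2 h.2), if_pos (not_le.1 a2)]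
        linarith
  refine (Finset.sum_le_sum (fun ω _ => hpt ω)).trans ?_
  rw [Finset.sum_add_distrib, Finset.sum_add_distrib, ← Finset.sum_filter, ← Finset.sum_filter]
  have l1' : ∑ ω with (𝔼 x, h ω x) ≤ η, F ω ≤ 2 * θ + θ ^ 2 / 2 := l1
  linarith

/-- The acceptance of two partitions without common influential coordinate, with the minimum of the
means for the heavy pairs. -/
theorem accept_min (Φ : Sys X o) (D : ℕ) {h g : Ω → (Λ → X) → ℝ} (h0 : ∀ ω x, 0 ≤ h ω x)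
    (hs : ∀ x, ∑ ω, h ω x = 1) (g0 : ∀ ω x, 0 ≤ g ω x)
    (gs : ∀ x, ∑ ω, g ω x = 1) (t : ℕ) (ht : 1 ≤ t) (θ : ℝ) (hθ : 0 < θ)
    (τ τ' : ℝ) (hτ0 : 0 < τ) (hτ' : τ' ≤ τ) (hτ'0 : 0 ≤ τ')
    (hD : (1 / 2) ^ D ≤ (θ ^ 2) ^ t)
    (hτD : (1 + Fintype.card X : ℝ) ^ D * τ ≤ 15 * (θ ^ 2) ^ (4 * t))
    (hsm : D / τ * τ' + (1 - 1 / (t : ℝ)) ^ (2 * D) ≤ (θ ^ 2) ^ 2 / 4)
    (hno : ∀ i, JJ Φ D h i < τ' ∨ JJ Φ D g i < τ') :
    ∑ ω, ∑ α, (1 - 1 / (t : ℝ)) ^ (supp o α).card *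
      ((Φ.pi Λ).coef (h ω) α * (Φ.pi Λ).coef (g ω) α) ≤ 4 * θ + θ ^ 2 +
      ∑ ω, if (θ ^ 2) ^ (4 * t) < (𝔼 x, h ω x) ∧ (θ ^ 2) ^ (4 * t) < (𝔼 x, g ω x)
        then min (𝔼 x, h ω x) (𝔼 x, g ω x) else 0 := by
  classical
  set η : ℝ := (θ ^ 2) ^ (4 * t) with hη
  have hne : Nonempty (Fin t × X) := ⟨(⟨0, ht⟩, o)⟩
  have hneX : Nonempty X := ⟨o⟩
  set F : Ω → ℝ := fun ω => ∑ α, (1 - 1 / (t : ℝ)) ^ (supp o α).card *
      ((Φ.pi Λ).coef (h ω) α * (Φ.pi Λ).coef (g ω) α) with hF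
  have l1 := light Φ D h0 hs g0 gs t ht θ hθ (univ.filter (fun ω => (𝔼 x, h ω x) ≤ η))
    (fun ω hω => (Finset.mem_filter.1 hω).2) τ τ' hτ0 hτ' hτ'0 hD hτD hsm hno
  have l2 := light Φ D g0 gs h0 hs t ht θ hθ
    (univ.filter (fun ω => ¬ (𝔼 x, h ω x) ≤ η ∧ (𝔼 x, g ω x) ≤ η))
    (fun ω hω => (Finset.mem_filter.1 hω).2.2) τ τ' hτ0 hτ' hτ'0 hD hτD hsm
    (fun i => (hno i).symm)
  have l2' : ∑ ω with (¬ (𝔼 x, h ω x) ≤ η ∧ (𝔼 x, g ω x) ≤ η), F ω ≤ 2 * θ + θ ^ 2 / 2 := by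
    refine le_trans (le_of_eq ?_) l2
    refine Finset.sum_congr rfl (fun ω _ => Finset.sum_congr rfl (fun α _ => ?_))
    rw [mul_comm ((Φ.pi Λ).coef (h ω) α)]
  have hbd : ∀ ω, F ω ≤ 𝔼 x, h ω x := by
    intro ω
    rw [hF]
    beta_reduce
    rw [← noise Φ t ht]
    refine Finset.expect_le_expect (fun x _ => ?_)
    refine Finset.expect_le Finset.univ_nonempty (fun s _ => ?_)
    have e1 := le_one_of_sum g0 gs ω (fun i => if (s i).1.val = 0 then (s i).2 else x i)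
    calc h ω x * _ ≤ h ω x * 1 := mul_le_mul_of_nonneg_left e1 (h0 ω x)
      _ = h ω x := mul_one _
  have hbd' : ∀ ω, F ω ≤ 𝔼 x, g ω x := by
    intro ω
    have e0 : F ω = ∑ α, (1 - 1 / (t : ℝ)) ^ (supp o α).card *
        ((Φ.pi Λ).coef (g ω) α * (Φ.pi Λ).coef (h ω) α) :=
      Finset.sum_congr rfl (fun α _ => by rw [mul_comm ((Φ.pi Λ).coef (h ω) α)])
    rw [e0, ← noise Φ t ht]
    refine Finset.expect_le_expect (fun x _ => ?_)
    refine Finset.expect_le Finset.univ_nonempty (fun s _ => ?_)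
    have e1 := le_one_of_sum h0 hs ω (fun i => if (s i).1.val = 0 then (s i).2 else x i)
    calc g ω x * _ ≤ g ω x * 1 := mul_le_mul_of_nonneg_left e1 (g0 ω x)
      _ = g ω x := mul_one _
  have hpt : ∀ ω, F ω ≤ (if (𝔼 x, h ω x) ≤ η then F ω else 0) +
      (if (¬ (𝔼 x, h ω x) ≤ η ∧ (𝔼 x, g ω x) ≤ η) then F ω else 0) +
      (if η < (𝔼 x, h ω x) ∧ η < (𝔼 x, g ω x) then min (𝔼 x, h ω x) (𝔼 x, g ω x) else 0) := by
    intro ω
    have e1 := hbd ω
    have e2 := hbd' ω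
    by_cases a1 : (𝔼 x, h ω x) ≤ η
    · rw [if_pos a1, if_neg (fun h => h.1 a1), if_neg (fun h => absurd h.1 (not_lt.2 a1))]
      linarith
    · by_cases a2 : (𝔼 x, g ω x) ≤ η
      · rw [if_neg a1, if_pos ⟨a1, a2⟩, if_neg (fun h => absurd h.2 (not_lt.2 a2))]
        linarith
      · rw [if_neg a1, if_neg (fun h => a2 h.2), if_pos ⟨not_le.1 a1, not_le.1 a2⟩]
        have := le_min e1 e2
        linarith
  refine (Finset.sum_le_sum (fun ω _ => hpt ω)).trans ?_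
  rw [Finset.sum_add_distrib, Finset.sum_add_distrib, ← Finset.sum_filter, ← Finset.sum_filter]
  have l1' : ∑ ω with (𝔼 x, h ω x) ≤ η, F ω ≤ 2 * θ + θ ^ 2 / 2 := l1
  linarith

end Pool.Agent.P325f1f.Dich
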