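import Mathlib
import Pool.Agent.Lib.P325f1f.Dich.GameDefs
import Pool.Agent.Lib.P325f1f.Dich.Noise

/-!
# Long code games with a given family of constraint permutations

The game `longGame t σ I` over `Ω` uses only the permutations `σ k`. Its soundness is controlled by
the largest acceptance of a pair of oblivious distributions on their heavy labels.
-/

open Finset
open scoped BigOperators

namespace Pool.Agent.P325f1f.Dich

section basics

variable {U W Ω ι : Type} [Fintype ι]

theorem satFrac_eq (I : Game U W Ω ι) [DecidableEq Ω] (x : U → Ω) (y : W → Ω) :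
    I.satFrac x y = 𝔼 e, if I.perm e (x (I.src e)) = y (I.dst e) then (1 : ℝ) else 0 := by
  rw [Game.satFrac, Fintype.expect_eq_sum_div_card, Finset.sum_boole]
  congr!

theorem satFrac_nonneg (I : Game U W Ω ι) (x : U → Ω) (y : W → Ω) : 0 ≤ I.satFrac x y := by
  rw [Game.satFrac]
  positivity

theorem satFrac_le_one (I : Game U W Ω ι) (x : U → Ω) (y : W → Ω) : I.satFrac x y ≤ 1 := by
  rw [Game.satFrac]
  apply div_le_one_of_le₀ _ (Nat.cast_nonneg _)
  exact_mod_cast Finset.card_le_univ _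

theorem bdd (I : Game U W Ω ι) :
    BddAbove (Set.range (fun p : (U → Ω) × (W → Ω) => I.satFrac p.1 p.2)) :=
  ⟨1, by rintro _ ⟨_, rfl⟩; exact satFrac_le_one I _ _⟩

theorem le_value (I : Game U W Ω ι) (x : U → Ω) (y : W → Ω) : I.satFrac x y ≤ I.value :=
  le_ciSup (bdd I) (x, y)

theorem value_nonneg (I : Game U W Ω ι) : 0 ≤ I.value :=
  Real.iSup_nonneg (fun _ => satFrac_nonneg I _ _)

theorem value_le_one (I : Game U W Ω ι) : I.value ≤ 1 :=
  Real.iSup_le (fun _ => satFrac_le_one I _ _) zero_le_one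

theorem value_pos [Nonempty ι] [Nonempty Ω] (I : Game U W Ω ι) : 0 < I.value := by
  classical
  obtain ⟨e⟩ := ‹Nonempty ι›
  obtain ⟨ω⟩ := ‹Nonempty Ω›
  refine lt_of_lt_of_le ?_ (le_value I (fun _ => ω) (fun _ => I.perm e ω))
  rw [satFrac_eq]
  exact Finset.expect_pos' (fun e' _ => by split_ifs <;> norm_num)
    ⟨e, mem_univ e, by rw [if_pos rfl]; norm_num⟩

end basics

/-! ## Completeness -/

section complete

variable {U W Λ ι Ω κ : Type} [Fintype Λ] [DecidableEq Λ] [Fintype ι] [Fintype κ]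
  [Fintype Ω]

theorem complete_aux [Nonempty Ω] [Nonempty κ] (t : ℕ) (ht : 1 ≤ t) (σ : κ → Equiv.Perm Ω)
    (I : Game U W Λ ι) (a : U → Λ) (b : W → Λ) :
    (1 - 1 / (t : ℝ)) * I.satFrac a b ≤ (longGame t σ I).satFrac
      (fun p => p.2 (a p.1)) (fun p => p.2 (b p.1)) := by
  classical
  rw [satFrac_eq, satFrac_eq]
  have hne : Nonempty (Fin t × Ω) := ⟨(⟨0, ht⟩, Classical.arbitrary Ω)⟩
  have h1 : (𝔼 p : ι × κ × (Λ → Ω) × (Λ → Fin t × Ω),
      (if I.perm p.1 (a (I.src p.1)) = b (I.dst p.1) then (1 : ℝ) else 0) *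
      (if (p.2.2.2 (a (I.src p.1))).1.val = 0 then (0 : ℝ) else 1)) =
      (1 - 1 / (t : ℝ)) * 𝔼 e, if I.perm e (a (I.src e)) = b (I.dst e) then (1 : ℝ) else 0 := by
    rw [expect_pair, Finset.mul_expect]
    refine Finset.expect_congr rfl (fun e _ => ?_)
    have h2 : (𝔼 s : Λ → Fin t × Ω,
        (if (s (a (I.src e))).1.val = 0 then (0 : ℝ) else 1)) = 1 - 1 / (t : ℝ) := by
      rw [expect_coord (a (I.src e))
        (fun p : Fin t × Ω => if p.1.val = 0 then (0 : ℝ) else 1),
        expect_pair]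
      have h3 : ∀ k : Fin t, (𝔼 _z : Ω, (if k.val = 0 then (0 : ℝ) else 1)) =
          if k.val = 0 then (0 : ℝ) else 1 := fun k => Fintype.expect_const _
      simp only [h3]
      rw [expect_fin t ht]
      ring
    have h4 : ∀ c : ℝ, (𝔼 r : κ × (Λ → Ω) × (Λ → Fin t × Ω), c *
        (if (r.2.2 (a (I.src e))).1.val = 0 then (0 : ℝ) else 1)) = (1 - 1 / (t : ℝ)) * c := by
      intro c
      rw [← Finset.mul_expect, expect_pair, mul_comm]
      congr 1
      refine (Finset.expect_congr rfl (fun k _ => ?_)).trans (Fintype.expect_const _)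
      rw [expect_pair]
      exact (Finset.expect_congr rfl (fun x _ => h2)).trans (Fintype.expect_const _)
    exact h4 (if I.perm e (a (I.src e)) = b (I.dst e) then 1 else 0)
  rw [← h1]
  refine Finset.expect_le_expect (fun p _ => ?_)
  by_cases hs : I.perm p.1 (a (I.src p.1)) = b (I.dst p.1)
  · by_cases hk : (p.2.2.2 (a (I.src p.1))).1.val = 0
    · rw [if_pos hk, mul_zero]
      split_ifs <;> norm_num
    · rw [if_pos hs, if_neg hk, if_pos, one_mul]
      show σ p.2.1 (p.2.2.1 (a (I.src p.1))) =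
        σ p.2.1 (mix p.2.2.1 p.2.2.2 ((I.perm p.1).symm (b (I.dst p.1))))
      rw [← hs, Equiv.symm_apply_apply, mix, if_neg hk]
  · rw [if_neg hs, zero_mul]
    split_ifs <;> norm_num

theorem complete [Nonempty Ω] [Nonempty κ] [Nonempty Λ] (t : ℕ) (ht : 1 ≤ t)
    (σ : κ → Equiv.Perm Ω) (I : Game U W Λ ι) :
    (1 - 1 / (t : ℝ)) * I.value ≤ (longGame t σ I).value := by
  have hρ0 : 0 ≤ 1 - 1 / (t : ℝ) := by
    have ht0 : (0 : ℝ) < t := by exact_mod_cast ht
    have : 1 / (t : ℝ) ≤ 1 := by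
      rw [div_le_one ht0]
      exact_mod_cast ht
    linarith
  have hne : Nonempty ((U → Λ) × (W → Λ)) :=
    ⟨(fun _ => Classical.arbitrary Λ, fun _ => Classical.arbitrary Λ)⟩
  rw [Game.value, Real.mul_iSup_of_nonneg hρ0]
  exact ciSup_le (fun p => (complete_aux t ht σ I p.1 p.2).trans (le_value _ _ _))

end complete

/-! ## Soundness -/

section sound

variable {U W Λ ι Ω κ : Type} [Fintype Λ] [DecidableEq Λ] [Fintype ι] [Fintype κ]
  [Fintype Ω] [DecidableEq Ω]

/-- The indicator functions of a labeling of the long code. -/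
def ind (A : (Λ → Ω) → Ω) (ω : Ω) (x : Λ → Ω) : ℝ := if A x = ω then 1 else 0

omit [Fintype Λ] [DecidableEq Λ] [Fintype Ω] in
theorem ind_nonneg (A : (Λ → Ω) → Ω) (ω : Ω) (x : Λ → Ω) : 0 ≤ ind A ω x := by
  rw [ind]
  split_ifs <;> norm_num

omit [Fintype Λ] [DecidableEq Λ] in
theorem ind_sum (A : (Λ → Ω) → Ω) (x : Λ → Ω) : ∑ ω, ind A ω x = 1 := by
  simp [ind]

/-- The second labeling, transported to the first long code. -/
def trans (τ : Equiv.Perm Ω) (σ : Equiv.Perm Λ) (B : (Λ → Ω) → Ω) (ω : Ω) (x : Λ → Ω) : ℝ :=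
  ind B (τ ω) (fun i => τ (x (σ.symm i)))

omit [Fintype Λ] [DecidableEq Λ] in
theorem trans_sum (τ : Equiv.Perm Ω) (σ : Equiv.Perm Λ) (B : (Λ → Ω) → Ω) (x : Λ → Ω) :
    ∑ ω, trans τ σ B ω x = 1 := by
  unfold trans
  rw [Equiv.sum_comp τ (fun ω => ind B ω (fun i => τ (x (σ.symm i))))]
  exact ind_sum B _

theorem satFrac_long {o : Ω} (Φ : Sys Ω o) (t : ℕ) (ht : 1 ≤ t) (σ : κ → Equiv.Perm Ω)
    (I : Game U W Λ ι) (A : U × (Λ → Ω) → Ω) (B : W × (Λ → Ω) → Ω) :
    (longGame t σ I).satFrac A B = 𝔼 e, 𝔼 k, ∑ ω, ∑ α,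
      (1 - 1 / (t : ℝ)) ^ (supp o α).card *
        ((Φ.pi Λ).coef (ind (fun x => A (I.src e, x)) ω) α *
         (Φ.pi Λ).coef (trans (σ k) (I.perm e) (fun x => B (I.dst e, x)) ω) α) := by
  rw [satFrac_eq, expect_pair]
  refine Finset.expect_congr rfl (fun e _ => ?_)
  rw [expect_pair]
  refine Finset.expect_congr rfl (fun k _ => ?_)
  have h1 : ∀ ω, (∑ α, (1 - 1 / (t : ℝ)) ^ (supp o α).card *
        ((Φ.pi Λ).coef (ind (fun x => A (I.src e, x)) ω) α *
         (Φ.pi Λ).coef (trans (σ k) (I.perm e) (fun x => B (I.dst e, x)) ω) α)) =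
      𝔼 x, 𝔼 s : Λ → Fin t × Ω, ind (fun x => A (I.src e, x)) ω x *
        ind (fun x => B (I.dst e, x)) (σ k ω)
          (fun i => σ k (mix x s ((I.perm e).symm i))) := by
    intro ω
    rw [← noise Φ t ht]
    rfl
  simp_rw [h1]
  rw [← Finset.expect_sum_comm, expect_pair]
  refine Finset.expect_congr rfl (fun x _ => ?_)
  rw [← Finset.expect_sum_comm]
  refine Finset.expect_congr rfl (fun s _ => ?_)
  have h2 : ∀ a b : Ω, ∑ ω, (if a = ω then (1 : ℝ) else 0) *
      (if b = σ k ω then (1 : ℝ) else 0) = if σ k a = b then 1 else 0 := by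
    intro a b
    rw [Finset.sum_eq_single a]
    · rw [if_pos rfl, one_mul]
      by_cases h : σ k a = b
      · rw [if_pos h, if_pos h.symm]
      · rw [if_neg h, if_neg (fun h' => h h'.symm)]
    · intro c _ hc
      rw [if_neg (fun h => hc h.symm), zero_mul]
    · intro h
      exact absurd (mem_univ a) h
  simp only [ind]
  rw [h2]
  rfl

/-- Every set of at most `k` labels is covered by `k` choices. -/
theorem exists_enum {Λ : Type} (o : Λ) (k : ℕ) (s : Finset Λ) (hs : s.card ≤ k) :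
    ∃ f : Fin k → Λ, ∀ i ∈ s, ∃ j, f j = i := by
  refine ⟨fun j => (s.toList[j.val]?).getD o, fun i hi => ?_⟩
  have h1 : i ∈ s.toList := Finset.mem_toList.2 hi
  obtain ⟨m, hm, rfl⟩ := List.getElem_of_mem h1
  rw [Finset.length_toList] at hm
  refine ⟨⟨m, by omega⟩, ?_⟩
  simp [hm]

theorem acc_le_one {o : Ω} (Φ : Sys Ω o) (t : ℕ) (ht : 1 ≤ t) (τ : Equiv.Perm Ω)
    (σ : Equiv.Perm Λ) (A B : (Λ → Ω) → Ω) :
    (∑ ω, ∑ α, (1 - 1 / (t : ℝ)) ^ (supp o α).card * ((Φ.pi Λ).coef (ind A ω) α *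
      (Φ.pi Λ).coef (trans τ σ B ω) α)) ≤ 1 := by
  have hne : Nonempty (Fin t × Ω) := ⟨(⟨0, ht⟩, o)⟩
  have hneO : Nonempty Ω := ⟨o⟩
  simp_rw [← noise Φ t ht]
  rw [← Finset.expect_sum_comm]
  refine Finset.expect_le Finset.univ_nonempty (fun x _ => ?_)
  rw [← Finset.expect_sum_comm]
  refine Finset.expect_le Finset.univ_nonempty (fun s _ => ?_)
  rw [← ind_sum A x]
  refine Finset.sum_le_sum (fun ω _ => ?_)
  have h1 : trans τ σ B ω (fun i => if (s i).1.val = 0 then (s i).2 else x i) ≤ 1 := by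
    rw [trans, ind]
    split_ifs <;> norm_num
  have h2 := ind_nonneg A ω x
  calc ind A ω x * _ ≤ ind A ω x * 1 := mul_le_mul_of_nonneg_left h1 h2
    _ = _ := mul_one _

theorem sound_gen [Nonempty Ω] [Nonempty κ] (σ : κ → Equiv.Perm Ω) (t : ℕ) (ht : 1 ≤ t)
    (θ : ℝ) (hθ0 : 0 < θ) (hθ1 : θ ≤ 1) (c : ℝ) (hc0 : 0 ≤ c)
    (hc : ∀ μ ν : Ω → ℝ, (∀ ω, 0 ≤ μ ω) → (∀ ω, 0 ≤ ν ω) → ∑ ω, μ ω = 1 → ∑ ω, ν ω = 1 →
      (𝔼 k, ∑ ω, if (θ ^ 2) ^ (4 * t) < μ ω ∧ (θ ^ 2) ^ (4 * t) < ν (σ k ω)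
        then min (μ ω) (ν (σ k ω)) else 0) ≤ c) :
    ∃ M : ℝ, ∀ (U W Λ ι : Type) [Fintype Λ] [DecidableEq Λ] [Nonempty Λ] [Fintype ι]
      [Nonempty ι] (I : Game U W Λ ι), (longGame t σ I).value ≤
        c + 5 * θ + M * I.value := by
  obtain ⟨o⟩ := ‹Nonempty Ω›
  have hneO : Nonempty Ω := ⟨o⟩
  obtain ⟨Φ⟩ := exists_sys o
  obtain ⟨D, τ, τ', hτ'0, hττ', p1, p2, p3⟩ :=
    params t (Fintype.card Ω) ht (θ ^ 2) (by positivity)
  set k : ℕ := ⌈(D : ℝ) / τ'⌉₊ with hk
  refine ⟨(k : ℝ) * k, ?_⟩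
  intro U W Λ ι _ _ _ _ _ I
  have hι : (0 : ℝ) < Fintype.card ι := by exact_mod_cast Fintype.card_pos
  have hv := value_nonneg I
  have hsupr : ∀ p : (U × (Λ → Ω) → Ω) × (W × (Λ → Ω) → Ω),
      (longGame t σ I).satFrac p.1 p.2 ≤ c + 5 * θ + (k : ℝ) * k * I.value := by
    rintro ⟨A, B⟩
    rw [satFrac_long Φ t ht]
    -- the lists
    set LU : U → Finset Λ := fun u =>
      univ.filter (fun i => τ' ≤ JJ Φ D (ind (fun x => A (u, x))) i) with hLU
    set LW : W → Finset Λ := fun w =>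
      univ.filter (fun i => τ' ≤ JJ Φ D (ind (fun x => B (w, x))) i) with hLW
    have hLUc : ∀ u, (LU u).card ≤ k := by
      intro u
      have h1 := card_big Φ D (h := ind (fun x => A (u, x))) (ind_nonneg _) (ind_sum _) hτ'0
      have h2 : ((LU u).card : ℝ) ≤ (k : ℝ) := h1.trans (Nat.le_ceil _)
      exact_mod_cast h2
    have hLWc : ∀ w, (LW w).card ≤ k := by
      intro w
      have h1 := card_big Φ D (h := ind (fun x => B (w, x))) (ind_nonneg _) (ind_sum _) hτ'0
      have h2 : ((LW w).card : ℝ) ≤ (k : ℝ) := h1.trans (Nat.le_ceil _)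
      exact_mod_cast h2
    choose fU hfU using fun u => exists_enum (Classical.arbitrary Λ) k (LU u) (hLUc u)
    choose fW hfW using fun w => exists_enum (Classical.arbitrary Λ) k (LW w) (hLWc w)
    -- decodable edges
    classical
    set Dec : ι → Prop := fun e => ∃ i ∈ LU (I.src e), I.perm e i ∈ LW (I.dst e) with hDec
    have hedge : ∀ e, (𝔼 k, ∑ ω, ∑ α, (1 - 1 / (t : ℝ)) ^ (supp o α).card *
        ((Φ.pi Λ).coef (ind (fun x => A (I.src e, x)) ω) α *
         (Φ.pi Λ).coef (trans (σ k) (I.perm e) (fun x => B (I.dst e, x)) ω) α)) ≤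
        c + 5 * θ + if Dec e then 1 else 0 := by
      intro e
      by_cases hd : Dec e
      · rw [if_pos hd]
        have h1 : (𝔼 k, ∑ ω, ∑ α, (1 - 1 / (t : ℝ)) ^ (supp o α).card *
          ((Φ.pi Λ).coef (ind (fun x => A (I.src e, x)) ω) α *
          (Φ.pi Λ).coef (trans (σ k) (I.perm e) (fun x => B (I.dst e, x)) ω) α)) ≤ 1 :=
          Finset.expect_le Finset.univ_nonempty (fun k _ => acc_le_one Φ t ht _ _ _ _)
        linarith
      · rw [if_neg hd, add_zero]
        have hacc : ∀ k, (∑ ω, ∑ α, (1 - 1 / (t : ℝ)) ^ (supp o α).card *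
          ((Φ.pi Λ).coef (ind (fun x => A (I.src e, x)) ω) α *
          (Φ.pi Λ).coef (trans (σ k) (I.perm e) (fun x => B (I.dst e, x)) ω) α)) ≤
            4 * θ + θ ^ 2 + ∑ ω, if (θ ^ 2) ^ (4 * t) < (𝔼 x, ind (fun x => A (I.src e, x)) ω x) ∧
              (θ ^ 2) ^ (4 * t) < (𝔼 x, ind (fun x => B (I.dst e, x)) (σ k ω) x)
                then min (𝔼 x, ind (fun x => A (I.src e, x)) ω x)
                  (𝔼 x, ind (fun x => B (I.dst e, x)) (σ k ω) x) else 0 := by
          intro k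
          have h1 := accept_min Φ D (h := ind (fun x => A (I.src e, x)))
            (g := trans (σ k) (I.perm e) (fun x => B (I.dst e, x))) (ind_nonneg _)
            (ind_sum _) (fun ω x => ind_nonneg _ _ _) (trans_sum _ _ _) t ht θ hθ0 τ τ'
            (hτ'0.trans_le hττ') hττ' hτ'0.le p1 p2 p3 (by
              intro i
              by_contra hcon
              push Not at hcon
              apply hd
              refine ⟨i, ?_, ?_⟩
              · rw [hLU, Finset.mem_filter]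
                exact ⟨mem_univ _, hcon.1⟩
              · rw [hLW, Finset.mem_filter]
                refine ⟨mem_univ _, ?_⟩
                rw [← JJ_move Φ D (σ k) (σ k) (I.perm e)
                  (ind (fun x => B (I.dst e, x))) i]
                exact hcon.2)
          refine h1.trans (le_of_eq ?_)
          congr 1
          refine Finset.sum_congr rfl (fun ω _ => ?_)
          have h2 : (𝔼 x, trans (σ k) (I.perm e) (fun x => B (I.dst e, x)) ω x) =
              𝔼 x, ind (fun x => B (I.dst e, x)) (σ k ω) x :=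
            mean_move (σ k) (I.perm e) (ind (fun x => B (I.dst e, x)) (σ k ω))
          rw [h2]
        refine (Finset.expect_le_expect (fun k _ => hacc k)).trans ?_
        rw [Finset.expect_add_distrib, Fintype.expect_const]
        have h3 := hc (fun ω => 𝔼 x, ind (fun x => A (I.src e, x)) ω x)
          (fun ω => 𝔼 x, ind (fun x => B (I.dst e, x)) ω x)
          (fun ω => Finset.expect_nonneg (fun x _ => ind_nonneg _ _ _))
          (fun ω => Finset.expect_nonneg (fun x _ => ind_nonneg _ _ _))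
          (sum_expect Φ (ind_sum _)) (sum_expect Φ (ind_sum _))
        have h4 : θ ^ 2 ≤ θ := by nlinarith
        linarith
    refine (Finset.expect_le_expect (fun e _ => hedge e)).trans ?_
    rw [Finset.expect_add_distrib, Fintype.expect_const]
    refine add_le_add le_rfl ?_
    -- decoding
    have hpt : ∀ e, (if Dec e then (1 : ℝ) else 0) ≤ ∑ j : Fin k, ∑ j' : Fin k,
        if I.perm e (fU (I.src e) j) = fW (I.dst e) j' then (1 : ℝ) else 0 := by
      intro e
      have hnn : ∀ j j' : Fin k, (0 : ℝ) ≤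
          if I.perm e (fU (I.src e) j) = fW (I.dst e) j' then (1 : ℝ) else 0 := by
        intro j j'
        split_ifs <;> norm_num
      by_cases hd : Dec e
      · rw [if_pos hd]
        obtain ⟨i, hi, hi'⟩ := hd
        obtain ⟨j, hj⟩ := hfU _ i hi
        obtain ⟨j', hj'⟩ := hfW _ _ hi'
        have h1 : (1 : ℝ) ≤ ∑ j' : Fin k,
            if I.perm e (fU (I.src e) j) = fW (I.dst e) j' then (1 : ℝ) else 0 := by
          refine le_trans (le_of_eq ?_) (Finset.single_le_sum (f := fun j' =>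
            if I.perm e (fU (I.src e) j) = fW (I.dst e) j' then (1 : ℝ) else 0)
            (fun j' _ => hnn j j') (mem_univ j'))
          rw [if_pos (by rw [hj, hj'])]
        exact h1.trans (Finset.single_le_sum (f := fun j => ∑ j' : Fin k,
          if I.perm e (fU (I.src e) j) = fW (I.dst e) j' then (1 : ℝ) else 0)
          (fun j _ => Finset.sum_nonneg (fun j' _ => hnn j j')) (mem_univ j))
      · rw [if_neg hd]
        exact Finset.sum_nonneg (fun j _ => Finset.sum_nonneg (fun j' _ => hnn j j'))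
    refine (Finset.expect_le_expect (fun e _ => hpt e)).trans ?_
    rw [Finset.expect_sum_comm]
    simp_rw [Finset.expect_sum_comm]
    have hjj : ∀ j j' : Fin k, (𝔼 e, if I.perm e (fU (I.src e) j) = fW (I.dst e) j' then
        (1 : ℝ) else 0) ≤ I.value := by
      intro j j'
      rw [← satFrac_eq I (fun u => fU u j) (fun w => fW w j')]
      exact le_value I _ _
    refine (Finset.sum_le_sum (fun j _ => Finset.sum_le_sum (fun j' _ => hjj j j'))).trans ?_
    rw [Finset.sum_const, Finset.sum_const, Finset.card_univ, Fintype.card_fin, nsmul_eq_mul,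
      nsmul_eq_mul, mul_assoc]
  exact Real.iSup_le hsupr (by positivity)

end sound

end Pool.Agent.P325f1f.Dich
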