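import Mathlib

/-!
# Weighted graphs of large girth

If the graph on `V` given by finitely many involutions `τ k` has no short non-backtracking closed
walk, then for every small set `H` of vertices the sum of `min (w v) (w (τ k v))` over the (oriented)
edges inside `H` is at most `2 * ∑ v ∈ H, w v`.
-/

open Finset

namespace Pool.Agent.P325f1f.Dich

section forest

variable {V κ : Type} (τ : κ → V → V)

/-- The action of a word. -/
def wact : List κ → V → V
  | [], v => v
  | k :: l, v => τ k (wact l v)

/-- Consecutive letters are distinct. -/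
def Red : List κ → Prop
  | [] => True
  | [_] => True
  | a :: b :: l => a ≠ b ∧ Red (b :: l)

/-- The word read off a walk. -/
def wordOf (c : ℕ → κ) (i : ℕ) : ℕ → List κ
  | 0 => []
  | n + 1 => c (i + n) :: wordOf c i n

theorem wordOf_length (c : ℕ → κ) (i n : ℕ) : (wordOf c i n).length = n := by
  induction n with
  | zero => rfl
  | succ n ih => simp [wordOf, ih]

theorem wordOf_red (c : ℕ → κ) (hc : ∀ n, c (n + 1) ≠ c n) (i n : ℕ) : Red (wordOf c i n) := by
  induction n with
  | zero => trivial
  | succ n ih =>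
    cases n with
    | zero => trivial
    | succ m => exact ⟨hc (i + m), ih⟩

theorem wordOf_act (c : ℕ → κ) (v : ℕ → V) (hv : ∀ n, v (n + 1) = τ (c n) (v n)) (i n : ℕ) :
    wact τ (wordOf c i n) (v i) = v (i + n) := by
  induction n with
  | zero => rfl
  | succ n ih =>
    show τ (c (i + n)) (wact τ (wordOf c i n) (v i)) = v (i + n + 1)
    rw [ih, hv]

/-- A vertex with at most one neighbour inside `H`. -/
theorem exists_leaf [Nonempty κ] (H : Finset V) (hH : H.Nonempty) (N : ℕ) (hN : H.card ≤ N)
    (hred : ∀ l : List κ, l ≠ [] → l.length ≤ N → Red l → ∀ v, wact τ l v ≠ v) :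
    ∃ v ∈ H, ∀ k k', τ k v ∈ H → τ k' v ∈ H → k = k' := by
  classical
  by_contra hcon
  push Not at hcon
  have hstep : ∀ (v : V) (k : κ), ∃ k', v ∈ H → (k' ≠ k ∧ τ k' v ∈ H) := by
    intro v k
    by_cases hv : v ∈ H
    · obtain ⟨k1, k2, h1, h2, h3⟩ := hcon v hv
      by_cases h : k1 = k
      · exact ⟨k2, fun _ => ⟨fun h' => h3 (h.trans h'.symm), h2⟩⟩
      · exact ⟨k1, fun _ => ⟨h, h1⟩⟩
    · exact ⟨k, fun h => absurd h hv⟩
  choose f hf using hstep
  obtain ⟨v0, hv0⟩ := hH
  -- the walk: state = (vertex, letter used to enter)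
  set s : ℕ → V × κ := fun n => Nat.rec (v0, Classical.arbitrary κ)
    (fun _ p => (τ (f p.1 p.2) p.1, f p.1 p.2)) n with hs
  have hs1 : ∀ n, s (n + 1) = (τ (f (s n).1 (s n).2) (s n).1, f (s n).1 (s n).2) := fun n => rfl
  have hmem : ∀ n, (s n).1 ∈ H := by
    intro n
    induction n with
    | zero => exact hv0
    | succ n ih =>
      rw [hs1]
      exact (hf _ _ ih).2
  set c : ℕ → κ := fun n => (s (n + 1)).2 with hc
  have hcne : ∀ n, c (n + 1) ≠ c n := by
    intro n
    show f (s (n + 1)).1 (s (n + 1)).2 ≠ (s (n + 1)).2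
    exact (hf _ _ (hmem (n + 1))).1
  have hv : ∀ n, (s (n + 1)).1 = τ (c n) (s n).1 := fun n => rfl
  obtain ⟨i, hi, j, hj, hij, heq⟩ := Finset.exists_ne_map_eq_of_card_lt_of_maps_to
    (s := Finset.range (H.card + 1)) (t := H) (by simp) (f := fun n => (s n).1)
    (fun n _ => hmem n)
  have key : ∀ i j, i < j → j < H.card + 1 → (s i).1 = (s j).1 → False := by
    intro i j hij hj heq
    obtain ⟨n, rfl⟩ := Nat.exists_eq_add_of_lt hij
    have h1 := wordOf_act τ c (fun n => (s n).1) hv i (n + 1)
    refine hred (wordOf c i (n + 1)) (by simp [wordOf]) ?_ (wordOf_red c hcne i (n + 1)) (s i).1 ?_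
    · rw [wordOf_length]
      omega
    · rw [h1]
      exact heq.symm
  rcases lt_or_gt_of_ne hij with h | h
  · exact key i j h (Finset.mem_range.1 hj) heq
  · exact key j i h (Finset.mem_range.1 hi) heq.symm

/-- Weighted forests: every edge is charged to one of its ends. -/
theorem forest [Fintype κ] [Nonempty κ] [DecidableEq V] (hinv : ∀ k v, τ k (τ k v) = v)
    (w : V → ℝ) (hw : ∀ v, 0 ≤ w v) (N : ℕ)
    (hred : ∀ l : List κ, l ≠ [] → l.length ≤ N → Red l → ∀ v, wact τ l v ≠ v)
    (H : Finset V) (hN : H.card ≤ N) :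
    ∑ v ∈ H, ∑ k, (if τ k v ∈ H then min (w v) (w (τ k v)) else 0) ≤ 2 * ∑ v ∈ H, w v := by
  classical
  induction H using Finset.strongInduction with
  | H H ih =>
    rcases H.eq_empty_or_nonempty with rfl | hne
    · simp
    obtain ⟨v, hv, huniq⟩ := exists_leaf τ H hne N hN hred
    have hH' := ih (H.erase v) (Finset.erase_ssubset hv)
      ((Finset.card_le_card (Finset.erase_subset v H)).trans hN)
    -- the edges at `v`
    have hv1 : ∑ k, (if τ k v ∈ H then min (w v) (w (τ k v)) else 0) ≤ w v := by
      by_cases hex : ∃ k, τ k v ∈ H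
      · obtain ⟨k0, hk0⟩ := hex
        rw [Finset.sum_eq_single k0]
        · rw [if_pos hk0]
          exact min_le_left _ _
        · intro k _ hk
          rw [if_neg]
          intro h
          exact hk (huniq k k0 h hk0)
        · intro h
          exact absurd (mem_univ _) h
      · push Not at hex
        rw [Finset.sum_eq_zero (fun k _ => if_neg (hex k))]
        exact hw v
    have hpt : ∀ u ∈ H.erase v, ∑ k, (if τ k u ∈ H then min (w u) (w (τ k u)) else 0) ≤
        (∑ k, (if τ k u ∈ H.erase v then min (w u) (w (τ k u)) else 0)) +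
        ∑ k, (if τ k v = u then min (w v) (w (τ k v)) else 0) := by
      intro u hu
      rw [← Finset.sum_add_distrib]
      refine Finset.sum_le_sum (fun k _ => ?_)
      have hnn : 0 ≤ (if τ k v = u then min (w v) (w (τ k v)) else 0) := by
        split_ifs
        · exact le_min (hw _) (hw _)
        · exact le_rfl
      by_cases h1 : τ k u ∈ H
      · rw [if_pos h1]
        by_cases h2 : τ k u = v
        · have h3 : τ k v = u := by rw [← h2, hinv]
          rw [if_neg (by rw [h2]; exact Finset.notMem_erase v H), if_pos h3, zero_add, h2, h3,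
            min_comm]
        · rw [if_pos (Finset.mem_erase.2 ⟨h2, h1⟩)]
          linarith
      · rw [if_neg h1, if_neg (fun h => h1 (Finset.mem_of_mem_erase h)), zero_add]
        exact hnn
    have hsum : ∑ u ∈ H.erase v, ∑ k, (if τ k v = u then min (w v) (w (τ k v)) else 0) ≤
        ∑ k, (if τ k v ∈ H then min (w v) (w (τ k v)) else 0) := by
      rw [Finset.sum_comm]
      refine Finset.sum_le_sum (fun k _ => ?_)
      rw [Finset.sum_ite_eq]
      by_cases h : τ k v ∈ H.erase v
      · rw [if_pos h, if_pos (Finset.mem_of_mem_erase h)]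
      · rw [if_neg h]
        split_ifs
        · exact le_min (hw _) (hw _)
        · exact le_rfl
    rw [← Finset.add_sum_erase H _ hv, ← Finset.add_sum_erase H w hv]
    have h1 := Finset.sum_le_sum hpt
    rw [Finset.sum_add_distrib] at h1
    linarith

end forest

end Pool.Agent.P325f1f.Dich
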