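import Mathlib
import Pool.Agent.Lib.P325f1f.Dich.Forest

/-!
# Involutions without short relations, and the acceptance of pairs of distributions

`exists_girth`: `d` involutions of a finite set such that no reduced word of length at most `N` has
a fixed point. `min_sum_le`: for such involutions, the average over `k` of
`∑ min (μ ω) (ν (σ k ω))`, over the pairs of heavy labels, is at most `2 / d`.
-/

open Finset
open scoped BigOperators

namespace Pool.Agent.P325f1f.Dich

section push

variable {κ : Type} [DecidableEq κ]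

/-- Prepend the letter `i`, or remove it; words do not get longer than `r`. -/
def push (r : ℕ) (i : κ) : List κ → List κ
  | [] => if 0 < r then [i] else []
  | a :: l => if a = i then l else if l.length + 1 < r then i :: a :: l else a :: l

theorem push_len (r : ℕ) (i : κ) (l : List κ) (h : l.length ≤ r) : (push r i l).length ≤ r := by
  cases l with
  | nil =>
    rw [push]
    split_ifs with h0
    · simp only [List.length_cons, List.length_nil]
      omega
    · simp
  | cons a l =>
    rw [push]
    simp only [List.length_cons] at h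
    split_ifs with h1 h2
    · omega
    · simp only [List.length_cons]
      omega
    · simpa using h

omit [DecidableEq κ] in
theorem Red.tail {a : κ} {l : List κ} (h : Red (a :: l)) : Red l := by
  cases l with
  | nil => trivial
  | cons b l => exact h.2

theorem push_red (r : ℕ) (i : κ) (l : List κ) (h : Red l) : Red (push r i l) := by
  cases l with
  | nil =>
    rw [push]
    split_ifs
    · trivial
    · trivial
  | cons a l =>
    rw [push]
    split_ifs with h1 h2
    · exact h.tail
    · exact ⟨fun h' => h1 h'.symm, h⟩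
    · exact h

theorem push_push (r : ℕ) (i : κ) (l : List κ) (h : Red l) (hl : l.length ≤ r) :
    push r i (push r i l) = l := by
  cases l with
  | nil =>
    by_cases h0 : 0 < r
    · rw [push, if_pos h0, push, if_pos rfl]
    · rw [push, if_neg h0, push, if_neg h0]
  | cons a l =>
    simp only [List.length_cons] at hl
    by_cases h1 : a = i
    · rw [push, if_pos h1]
      subst h1
      cases l with
      | nil => rw [push, if_pos (by omega)]
      | cons b l =>
        have h2 : a ≠ b := h.1
        simp only [List.length_cons] at hl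
        rw [push, if_neg (fun h' => h2 h'.symm), if_pos (by omega)]
    · by_cases h2 : l.length + 1 < r
      · rw [push, if_neg h1, if_pos h2, push, if_pos rfl]
      · rw [push, if_neg h1, if_neg h2, push, if_neg h1, if_neg h2]

theorem push_word (r : ℕ) (l : List κ) (h : Red l) (hl : l.length ≤ r) :
    wact (push r) l [] = l := by
  induction l with
  | nil => rfl
  | cons a l ih =>
    simp only [List.length_cons] at hl
    rw [wact, ih h.tail (by omega)]
    cases l with
    | nil => rw [push, if_pos (by omega)]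
    | cons b l =>
      have h2 : a ≠ b := h.1
      simp only [List.length_cons] at hl
      rw [push, if_neg (fun h' => h2 h'.symm), if_pos (by omega)]

end push

/-- `d` involutions without short relations. -/
theorem exists_girth (d N : ℕ) : ∃ (Ω : Type) (_ : Fintype Ω) (_ : Nonempty Ω)
    (σ : Fin d → Equiv.Perm Ω), (∀ k ω, σ k (σ k ω) = ω) ∧
      ∀ l : List (Fin d), l ≠ [] → l.length ≤ N → Red l →
        ∀ ω, wact (fun k ω => σ k ω) l ω ≠ ω := by
  classical
  set Ω0 : Type := {l : List (Fin d) // Red l ∧ l.length ≤ N} with hΩ0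
  have hfin : Finite Ω0 := by
    have h1 : Finite {l : List (Fin d) | l.length ≤ N} := (List.finite_length_le (Fin d) N)
    exact Finite.of_injective
      (fun l : Ω0 => (⟨l.1, l.2.2⟩ : {l : List (Fin d) | l.length ≤ N}))
      (fun a b hab => Subtype.ext (by simpa using hab))
  have hft : Fintype Ω0 := Fintype.ofFinite Ω0
  set p : Fin d → Ω0 → Ω0 := fun k l =>
    ⟨push N k l.1, push_red N k l.1 l.2.1, push_len N k l.1 l.2.2⟩ with hp
  have hpp : ∀ k, Function.Involutive (p k) := fun k l =>
    Subtype.ext (push_push N k l.1 l.2.1 l.2.2)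
  set P : Fin d → Equiv.Perm Ω0 := fun k => (hpp k).toPerm with hP
  have hPP : ∀ k, P k * P k = 1 := by
    intro k
    ext l : 1
    exact hpp k l
  refine ⟨Equiv.Perm Ω0, inferInstance, ⟨1⟩, fun k => Equiv.mulLeft (P k), ?_, ?_⟩
  · intro k g
    show P k * (P k * g) = g
    rw [← mul_assoc, hPP, one_mul]
  · intro l hl hlN hred g hfix
    have h1 : ∀ (l : List (Fin d)) (x : Ω0),
        (wact (fun k ω => Equiv.mulLeft (P k) ω) l g) x =
          wact p l (g x) := by
      intro l x
      induction l with
      | nil => rfl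
      | cons k l ih =>
        show P k ((wact (fun k ω => Equiv.mulLeft (P k) ω) l g) x) = p k (wact p l (g x))
        rw [ih]
        rfl
    have h2 : ∀ (l : List (Fin d)) (x : Ω0), (wact p l x).1 = wact (push N) l x.1 := by
      intro l x
      induction l with
      | nil => rfl
      | cons k l ih =>
        show push N k (wact p l x).1 = push N k (wact (push N) l x.1)
        rw [ih]
    set e : Ω0 := ⟨[], trivial, Nat.zero_le _⟩ with he
    have h3 := h1 l (g⁻¹ e)
    rw [hfix, show g (g⁻¹ e) = e from Equiv.apply_symm_apply g e] at h3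
    have h4 := h2 l e
    rw [← h3] at h4
    have h5 : wact (push N) l e.1 = l := push_word N l hred hlN
    rw [h5] at h4
    exact hl h4.symm

/-- The average acceptance of two distributions on their heavy labels is at most `2 / d`. -/
theorem min_sum_le {Ω : Type} [Fintype Ω] (d : ℕ) (hd : 0 < d) (σ : Fin d → Equiv.Perm Ω)
    (hinv : ∀ k ω, σ k (σ k ω) = ω) (η : ℝ) (hη : 0 < η) (N : ℕ) (hN : 2 / η ≤ N)
    (hred : ∀ l : List (Fin d), l ≠ [] → l.length ≤ N → Red l →
        ∀ ω, wact (fun k ω => σ k ω) l ω ≠ ω)
    (μ ν : Ω → ℝ) (hμ : ∀ ω, 0 ≤ μ ω) (hν : ∀ ω, 0 ≤ ν ω) (hμ1 : ∑ ω, μ ω = 1)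
    (hν1 : ∑ ω, ν ω = 1) :
    (𝔼 k, ∑ ω, if η < μ ω ∧ η < ν (σ k ω) then min (μ ω) (ν (σ k ω)) else 0) ≤ 2 / d := by
  classical
  have hne : Nonempty (Fin d) := ⟨⟨0, hd⟩⟩
  set τ : Fin d → Bool × Ω → Bool × Ω := fun k v => (!v.1, σ k v.2) with hτ
  set w : Bool × Ω → ℝ := fun v => if v.1 then ν v.2 else μ v.2 with hw
  have hw0 : ∀ v, 0 ≤ w v := by
    rintro ⟨b, ω⟩
    cases b
    · exact hμ ω
    · exact hν ω
  have hwsum : ∑ v, w v = 2 := by
    rw [Fintype.sum_prod_type, Fintype.sum_bool]
    have e1 : ∑ ω, w (true, ω) = 1 := hν1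
    have e2 : ∑ ω, w (false, ω) = 1 := hμ1
    rw [e1, e2]
    norm_num
  set H : Finset (Bool × Ω) := univ.filter (fun v => η < w v) with hH
  have hHc : H.card ≤ N := by
    have h1 : (H.card : ℝ) * η ≤ ∑ v ∈ H, w v := by
      rw [← nsmul_eq_mul]
      exact Finset.card_nsmul_le_sum H w η (fun v hv => (Finset.mem_filter.1 hv).2.le)
    have h2 : ∑ v ∈ H, w v ≤ ∑ v, w v :=
      Finset.sum_le_sum_of_subset_of_nonneg (Finset.subset_univ _) (fun v _ _ => hw0 v)
    have h3 : (H.card : ℝ) ≤ N := by
      refine le_trans ?_ hN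
      rw [le_div_iff₀ hη]
      linarith
    exact_mod_cast h3
  have hτinv : ∀ k v, τ k (τ k v) = v := by
    rintro k ⟨b, ω⟩
    simp only [hτ, Bool.not_not, hinv]
  have hact : ∀ (l : List (Fin d)) (v : Bool × Ω),
      (wact τ l v).2 = wact (fun k ω => σ k ω) l v.2 := by
    intro l v
    induction l with
    | nil => rfl
    | cons k l ih =>
      show σ k (wact τ l v).2 = σ k (wact (fun k ω => σ k ω) l v.2)
      rw [ih]
  have hf := forest τ hτinv w hw0 N (fun l hl hlN hr v hv => hred l hl hlN hr v.2 (by
    rw [← hact l v, hv])) H hHc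
  -- rewrite the left side
  set S : ℝ := ∑ k, ∑ ω, if η < μ ω ∧ η < ν (σ k ω) then min (μ ω) (ν (σ k ω)) else 0 with hS
  have hmemH : ∀ v, v ∈ H ↔ η < w v := fun v => by
    rw [hH, Finset.mem_filter]
    exact ⟨fun h => h.2, fun h => ⟨mem_univ _, h⟩⟩
  have hHsum : ∀ f : Bool × Ω → ℝ, ∑ v ∈ H, f v = ∑ v, if η < w v then f v else 0 :=
    fun f => Finset.sum_filter _ _
  have hleft : ∑ v ∈ H, ∑ k, (if τ k v ∈ H then min (w v) (w (τ k v)) else 0) = 2 * S := by
    rw [Finset.sum_comm]
    have h1 : ∀ k, ∑ v ∈ H, (if τ k v ∈ H then min (w v) (w (τ k v)) else 0) =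
        2 * ∑ ω, if η < μ ω ∧ η < ν (σ k ω) then min (μ ω) (ν (σ k ω)) else 0 := by
      intro k
      rw [hHsum, Fintype.sum_prod_type, Fintype.sum_bool]
      have e1 : ∑ ω, (if η < w (true, ω) then
          (if τ k (true, ω) ∈ H then
            min (w (true, ω)) (w (τ k (true, ω))) else 0) else 0) =
          ∑ ω, if η < μ ω ∧ η < ν (σ k ω) then min (μ ω) (ν (σ k ω)) else 0 := by
        rw [← Equiv.sum_comp (σ k)]
        refine Finset.sum_congr rfl (fun ω _ => ?_)
        have a1 : τ k (true, σ k ω) = (false, ω) := by simp only [hτ, Bool.not_true, hinv]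
        have a2 : w (true, σ k ω) = ν (σ k ω) := rfl
        have a3 : w (false, ω) = μ ω := rfl
        rw [a1, a2, a3]
        by_cases b1 : η < ν (σ k ω)
        · by_cases b2 : η < μ ω
          · rw [if_pos b1, if_pos ((hmemH (false, ω)).2 b2), if_pos ⟨b2, b1⟩,
              min_comm]
          · rw [if_pos b1, if_neg (fun h => b2 ((hmemH (false, ω)).1 h)),
              if_neg (fun h => b2 h.1)]
        · rw [if_neg b1, if_neg (fun h => b1 h.2)]
      have e2 : ∑ ω, (if η < w (false, ω) then
          (if τ k (false, ω) ∈ H then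
            min (w (false, ω)) (w (τ k (false, ω))) else 0) else 0) =
          ∑ ω, if η < μ ω ∧ η < ν (σ k ω) then min (μ ω) (ν (σ k ω)) else 0 := by
        refine Finset.sum_congr rfl (fun ω _ => ?_)
        have a1 : τ k (false, ω) = (true, σ k ω) := rfl
        have a2 : w (true, σ k ω) = ν (σ k ω) := rfl
        have a3 : w (false, ω) = μ ω := rfl
        rw [a1, a2, a3]
        by_cases b1 : η < ν (σ k ω)
        · by_cases b2 : η < μ ω
          · rw [if_pos b2, if_pos ((hmemH (true, σ k ω)).2 b1), if_pos ⟨b2, b1⟩]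
          · rw [if_neg b2, if_neg (fun h => b2 h.1)]
        · rw [if_neg (fun h : (true, σ k ω) ∈ H => b1 ((hmemH (true, σ k ω)).1 h)),
            ite_self, if_neg (fun h : η < μ ω ∧ η < ν (σ k ω) => b1 h.2)]
      rw [e1, e2]
      ring
    rw [Finset.sum_congr rfl (fun k _ => h1 k), ← Finset.mul_sum]
  have hright : ∑ v ∈ H, w v ≤ 2 := by
    rw [← hwsum]
    exact Finset.sum_le_sum_of_subset_of_nonneg (Finset.subset_univ _) (fun v _ _ => hw0 v)
  rw [hleft] at hf
  rw [Fintype.expect_eq_sum_div_card, Fintype.card_fin]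
  have hdp : (0 : ℝ) < d := by exact_mod_cast hd
  rw [div_le_div_iff_of_pos_right hdp]
  linarith

end Pool.Agent.P325f1f.Dich
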