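import Mathlib

/-!
# Orthonormal systems on a finite set and on its powers
-/

set_option autoImplicit false

open Finset

namespace Pool.Agent.P325f1f.Dich

variable {X : Type} [Fintype X] [DecidableEq X]

/-- An orthonormal basis (for the uniform probability) of the functions on `X`, indexed by `X`
itself; the function with index `o` is the constant `1`. -/
structure Sys (X : Type) [Fintype X] [DecidableEq X] (o : X) where
  /-- the functions -/
  φ : X → X → ℝ
  orth : ∀ a b, ∑ x, φ a x * φ b x = if a = b then (Fintype.card X : ℝ) else 0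
  comp : ∀ x y, ∑ a, φ a x * φ a y = if x = y then (Fintype.card X : ℝ) else 0
  one : ∀ x, φ o x = 1

theorem exists_sys (o : X) : Nonempty (Sys X o) := by
  classical
  have hn : (0 : ℝ) < Fintype.card X := by exact_mod_cast Fintype.card_pos_iff.2 ⟨o⟩
  set n : ℝ := (Fintype.card X : ℝ) with hndef
  have hs : 0 < Real.sqrt n := Real.sqrt_pos.2 hn
  have hs2 : Real.sqrt n * Real.sqrt n = n := Real.mul_self_sqrt hn.le
  let v : X → EuclideanSpace ℝ X := fun _ => WithLp.toLp 2 (fun _ => (Real.sqrt n)⁻¹)
  have hv : Orthonormal ℝ (({o} : Set X).domRestrict v) := by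
    constructor
    · intro i
      show ‖(WithLp.toLp 2 (fun _ : X => (Real.sqrt n)⁻¹) : EuclideanSpace ℝ X)‖ = 1
      rw [EuclideanSpace.norm_eq]
      simp only [Real.norm_eq_abs, sq_abs, Finset.sum_const, Finset.card_univ, nsmul_eq_mul]
      rw [← hndef, inv_pow, Real.sq_sqrt hn.le, mul_inv_cancel₀ hn.ne', Real.sqrt_one]
    · intro i j hij
      exact absurd (Subtype.ext (i.2.trans j.2.symm)) hij
  obtain ⟨b, hb⟩ := hv.exists_orthonormalBasis_extension_of_card_eq
    (by rw [finrank_euclideanSpace])
  have hbo : ∀ x, b o x = (Real.sqrt n)⁻¹ := by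
    intro x
    rw [hb o rfl]
  have hon : ∀ a c, ∑ x, b a x * b c x = if a = c then (1 : ℝ) else 0 := by
    intro a c
    have h1 := orthonormal_iff_ite.1 b.orthonormal a c
    rw [← h1, PiLp.inner_apply]
    refine Finset.sum_congr rfl (fun x _ => ?_)
    simp [mul_comm]
  have hco : ∀ x y, ∑ a, b a x * b a y = if x = y then (1 : ℝ) else 0 := by
    intro x y
    -- the matrix `(b a x)` is orthogonal
    let A : Matrix X X ℝ := Matrix.of fun a x => b a x
    have h1 : A * A.transpose = 1 := by
      ext a c
      rw [Matrix.mul_apply, Matrix.one_apply]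
      exact hon a c
    have h2 : A.transpose * A = 1 := mul_eq_one_comm.1 h1
    have h3 := congrFun (congrFun h2 x) y
    rw [Matrix.mul_apply, Matrix.one_apply] at h3
    exact h3
  refine ⟨⟨fun a x => Real.sqrt n * b a x, ?_, ?_, ?_⟩⟩
  · intro a c
    have h1 : ∑ x, Real.sqrt n * b a x * (Real.sqrt n * b c x) = n * ∑ x, b a x * b c x := by
      rw [Finset.mul_sum]
      refine Finset.sum_congr rfl (fun x _ => ?_)
      have h2 : Real.sqrt n * b a x * (Real.sqrt n * b c x) =
          (Real.sqrt n * Real.sqrt n) * (b a x * b c x) := by ring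
      rw [h2, hs2]
    rw [h1, hon]
    split_ifs
    · rw [mul_one]
    · rw [mul_zero]
  · intro x y
    have h1 : ∑ a, Real.sqrt n * b a x * (Real.sqrt n * b a y) = n * ∑ a, b a x * b a y := by
      rw [Finset.mul_sum]
      refine Finset.sum_congr rfl (fun a _ => ?_)
      have h2 : Real.sqrt n * b a x * (Real.sqrt n * b a y) =
          (Real.sqrt n * Real.sqrt n) * (b a x * b a y) := by ring
      rw [h2, hs2]
    rw [h1, hco]
    split_ifs
    · rw [mul_one]
    · rw [mul_zero]
  · intro x
    show Real.sqrt n * b o x = 1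
    rw [hbo, mul_inv_cancel₀ hs.ne']

end Pool.Agent.P325f1f.Dich
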