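import Mathlib

/-!
# A bounded model of a permutation

For every permutation `τ` of any nonempty set and every `K ≥ 1` there are a permutation `ρ` of at
most `K ^ 2` points and `K` maps in each direction such that every point violates equivariance for
at most one of the `K` maps.
-/

open Finset

namespace Pool.Agent.P325f1f.Dich

section cyc

variable {Λ : Type} (τ : Equiv.Perm Λ)

/-- The length of the cycle through `a`; it is `0` if the cycle is infinite. -/
noncomputable def per (a : Λ) : ℕ := Function.minimalPeriod (τ • ·) a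

theorem zpow_per (a : Λ) (m n : ℤ) (h : (per τ a : ℤ) ∣ m - n) : (τ ^ m) a = (τ ^ n) a := by
  have h1 : (τ ^ (m - n)) • a = a := MulAction.zpow_smul_eq_iff_minimalPeriod_dvd.2 h
  have h2 : (τ ^ n) ((τ ^ (m - n)) a) = (τ ^ m) a := by
    rw [← Equiv.Perm.mul_apply, ← zpow_add]
    congr 2
    ring
  rw [← h2]
  exact congrArg _ h1

theorem dvd_of_zpow (a : Λ) (m n : ℤ) (h : (τ ^ m) a = (τ ^ n) a) : (per τ a : ℤ) ∣ m - n := by
  refine MulAction.zpow_smul_eq_iff_minimalPeriod_dvd.1 ?_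
  show (τ ^ (m - n)) a = a
  have h2 : (τ ^ (-n)) ((τ ^ m) a) = (τ ^ (m - n)) a := by
    rw [← Equiv.Perm.mul_apply, ← zpow_add]
    congr 2
    ring
  rw [← h2, h, ← Equiv.Perm.mul_apply, ← zpow_add, neg_add_cancel, zpow_zero]
  rfl

/-- The lengths of the cycles of the bounded model. -/
abbrev Len (K : ℕ) : Type := {l : ℕ // 0 < l ∧ l ≤ K ∧ (l = K ∨ ∃ a, per τ a = l)}

/-- The points of the bounded model. -/
abbrev Model (K : ℕ) : Type := Σ l : Len τ K, ZMod l.1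

/-- The permutation of the bounded model. -/
def rho (K : ℕ) : Equiv.Perm (Model τ K) :=
  Equiv.sigmaCongrRight (fun l => Equiv.addRight (1 : ZMod l.1))

theorem rho_mk (K : ℕ) (l : Len τ K) (j : ZMod l.1) :
    rho τ K ⟨l, j⟩ = ⟨l, j + 1⟩ := rfl

theorem model_inj (K : ℕ) : ∃ f : Model τ K → Fin K × Fin K, Function.Injective f := by
  refine ⟨fun p => (⟨p.1.1 - 1, ?_⟩, ⟨p.2.val, ?_⟩), ?_⟩
  · have h1 := p.1.2.1
    have h2 := p.1.2.2.1
    omega
  · have h1 := p.1.2.1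
    have h2 := p.1.2.2.1
    have : NeZero p.1.1 := ⟨by omega⟩
    exact (ZMod.val_lt p.2).trans_le h2
  · rintro ⟨⟨l, hl⟩, j⟩ ⟨⟨l', hl'⟩, j'⟩ h
    have h1 : l - 1 = l' - 1 := congrArg (fun x : Fin K × Fin K => x.1.val) h
    have h2 : j.val = j'.val := congrArg (fun x : Fin K × Fin K => x.2.val) h
    have h3 := hl.1
    have h4 := hl'.1
    have h5 : l = l' := by omega
    subst h5
    have : NeZero l := ⟨by omega⟩
    have h6 : j = j' := ZMod.val_injective l h2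
    subst h6
    rfl

open Classical in
/-- The forward maps, on the point `τ ^ i a`. -/
noncomputable def fwd (K : ℕ) (hK : 0 < K) (a : Λ) (i : ℤ) (r : Fin K) : Model τ K :=
  if h : 0 < per τ a ∧ per τ a < K then
    ⟨⟨per τ a, h.1, h.2.le, Or.inr ⟨a, rfl⟩⟩, (i : ZMod (per τ a))⟩
  else ⟨⟨K, hK, le_rfl, Or.inl rfl⟩, (((i + (r.val : ℤ)) % (per τ a : ℤ) : ℤ) : ZMod K)⟩

theorem fwd_step (K : ℕ) (hK : 0 < K) (a : Λ) (i i' : ℤ) (h : (per τ a : ℤ) ∣ i' - (i + 1))
    (r : Fin K) (hne : fwd τ K hK a i' r ≠ rho τ K (fwd τ K hK a i r)) :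
    K ≤ per τ a ∧ (i + (r.val : ℤ)) % (per τ a : ℤ) = (per τ a : ℤ) - 1 := by
  classical
  by_cases hs : 0 < per τ a ∧ per τ a < K
  · exfalso
    apply hne
    rw [fwd, fwd, dif_pos hs, dif_pos hs, rho_mk]
    congr 1
    have h1 : (((i + 1 : ℤ)) : ZMod (per τ a)) = (i' : ZMod (per τ a)) :=
      (ZMod.intCast_eq_intCast_iff_dvd_sub _ _ _).2 h
    rw [← h1]
    push_cast
    ring
  · by_contra hcon
    apply hne
    rw [fwd, fwd, dif_neg hs, dif_neg hs, rho_mk]
    congr 1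
    have h2 : (i' + (r.val : ℤ)) % (per τ a : ℤ) = (i + (r.val : ℤ)) % (per τ a : ℤ) + 1 := by
      rcases Nat.eq_zero_or_pos (per τ a) with h0 | h0
      · rw [h0] at h ⊢
        have h3 : i' - (i + 1) = 0 := by simpa using h
        simp only [Nat.cast_zero, Int.emod_zero]
        omega
      · have h4 : K ≤ per τ a := by
          by_contra h5
          exact hs ⟨h0, by omega⟩
        have h6 : (i + (r.val : ℤ)) % (per τ a : ℤ) ≠ (per τ a : ℤ) - 1 := fun h7 => hcon ⟨h4, h7⟩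
        have hp : (0 : ℤ) < per τ a := by exact_mod_cast h0
        have h8 := Int.emod_nonneg (i + (r.val : ℤ)) hp.ne'
        have h9 := Int.emod_lt_of_pos (i + (r.val : ℤ)) hp
        have h10 : (i' + (r.val : ℤ)) % (per τ a : ℤ) = ((i + (r.val : ℤ)) + 1) % (per τ a : ℤ) := by
          apply Int.emod_emod_of_dvd _ (dvd_refl _) |>.symm.trans
          rw [Int.emod_emod_of_dvd _ (dvd_refl _)]
          refine Int.ModEq.symm ?_
          refine (Int.modEq_iff_dvd).2 ?_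
          have : i' + (r.val : ℤ) - (i + (r.val : ℤ) + 1) = i' - (i + 1) := by ring
          rw [this]
          exact h
        rw [h10, ← Int.emod_add_emod, Int.emod_eq_of_lt (by omega) (by omega)]
    rw [h2]
    push_cast
    ring

theorem fwd_bad (K : ℕ) (hK : 0 < K) (a : Λ) (i i' : ℤ) (h : (per τ a : ℤ) ∣ i' - (i + 1))
    (r r' : Fin K) (hr : fwd τ K hK a i' r ≠ rho τ K (fwd τ K hK a i r))
    (hr' : fwd τ K hK a i' r' ≠ rho τ K (fwd τ K hK a i r')) : r = r' := by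
  obtain ⟨h1, h2⟩ := fwd_step τ K hK a i i' h r hr
  obtain ⟨_, h3⟩ := fwd_step τ K hK a i i' h r' hr'
  have h4 : (i + (r.val : ℤ)) ≡ (i + (r'.val : ℤ)) [ZMOD (per τ a : ℤ)] := by
    rw [Int.ModEq, h2, h3]
  have h5 := (Int.modEq_iff_dvd).1 h4
  have h6 : (i + (r'.val : ℤ)) - (i + (r.val : ℤ)) = (r'.val : ℤ) - r.val := by ring
  rw [h6] at h5
  have h7 := r.2
  have h8 := r'.2
  have h9 : (r'.val : ℤ) - r.val = 0 := by
    refine Int.eq_zero_of_abs_lt_dvd h5 ?_
    rw [abs_lt]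
    constructor <;> omega
  exact Fin.ext (by omega)

open Classical in
/-- The backward maps. -/
noncomputable def bwd (K : ℕ) (a0 : Λ) (s : Fin K) (b : Model τ K) : Λ :=
  if h : ∃ a, per τ a = b.1.1 then (τ ^ (ZMod.cast b.2 : ℤ)) h.choose
  else (τ ^ ((b.2 + (s.val : ZMod b.1.1)).val)) a0

theorem bwd_pos (K : ℕ) (a0 : Λ) (s : Fin K) (l : Len τ K) (j : ZMod l.1)
    (h : ∃ a, per τ a = l.1) :
    bwd τ K a0 s ⟨l, j⟩ = (τ ^ (ZMod.cast j : ℤ)) h.choose := dif_pos h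

theorem bwd_neg (K : ℕ) (a0 : Λ) (s : Fin K) (l : Len τ K) (j : ZMod l.1)
    (h : ¬ ∃ a, per τ a = l.1) :
    bwd τ K a0 s ⟨l, j⟩ = (τ ^ ((j + (s.val : ZMod l.1)).val)) a0 := dif_neg h

theorem bwd_step (K : ℕ) (a0 : Λ) (s : Fin K) (b : Model τ K)
    (hne : bwd τ K a0 s (rho τ K b) ≠ τ (bwd τ K a0 s b)) :
    b.1.1 = K ∧ (b.2 + (s.val : ZMod b.1.1)).val + 1 = K := by
  classical
  obtain ⟨⟨l, h0, h1, h2⟩, j⟩ := b
  by_cases hex : ∃ a, per τ a = l
  · exfalso
    apply hne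
    rw [rho_mk, bwd_pos τ K a0 s ⟨l, h0, h1, h2⟩ (j + 1) hex,
      bwd_pos τ K a0 s ⟨l, h0, h1, h2⟩ j hex]
    rw [← Equiv.Perm.mul_apply, ← zpow_one_add]
    refine zpow_per τ _ _ _ ?_
    rw [hex.choose_spec]
    have h3 : (((1 + (ZMod.cast j : ℤ) : ℤ)) : ZMod l) = (((ZMod.cast (j + 1) : ℤ) : ℤ) : ZMod l) := by
      push_cast
      exact add_comm _ _
    exact (ZMod.intCast_eq_intCast_iff_dvd_sub _ _ _).1 h3
  · have hl : l = K := h2.resolve_right hex
    subst hl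
    refine ⟨rfl, ?_⟩
    have hNZ : NeZero l := ⟨by omega⟩
    have key : ∀ v : ZMod l, v.val + 1 ≠ l → (v + 1).val = v.val + 1 := by
      intro v hv
      have hlt := ZMod.val_lt v
      have hl1 : 1 < l := by omega
      have : Fact (1 < l) := ⟨hl1⟩
      rw [ZMod.val_add_of_lt, ZMod.val_one]
      rw [ZMod.val_one]
      omega
    by_contra hcon
    apply hne
    rw [rho_mk, bwd_neg τ l a0 s ⟨l, h0, h1, h2⟩ (j + 1) hex,
      bwd_neg τ l a0 s ⟨l, h0, h1, h2⟩ j hex]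
    have h4 := key (j + (s.val : ZMod l)) hcon
    have h5 : (j + (s.val : ZMod l)) + 1 = j + 1 + (s.val : ZMod l) := by ring
    rw [h5] at h4
    show (τ ^ ((j + 1 + (s.val : ZMod l)).val)) a0 = τ ((τ ^ ((j + (s.val : ZMod l)).val)) a0)
    rw [h4, pow_succ', Equiv.Perm.mul_apply]

theorem bwd_bad (K : ℕ) (a0 : Λ) (s s' : Fin K) (b : Model τ K)
    (hs : bwd τ K a0 s (rho τ K b) ≠ τ (bwd τ K a0 s b))
    (hs' : bwd τ K a0 s' (rho τ K b) ≠ τ (bwd τ K a0 s' b)) : s = s' := by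
  obtain ⟨h1, h2⟩ := bwd_step τ K a0 s b hs
  obtain ⟨_, h3⟩ := bwd_step τ K a0 s' b hs'
  obtain ⟨⟨l, h0, h4, h5⟩, j⟩ := b
  simp only at h1 h2 h3
  subst h1
  have : NeZero l := ⟨by omega⟩
  have h6 : (j + (s.val : ZMod l)).val = (j + (s'.val : ZMod l)).val := by omega
  have h7 := ZMod.val_injective l h6
  have h8 : (s.val : ZMod l) = (s'.val : ZMod l) := add_left_cancel h7
  rw [ZMod.natCast_eq_natCast_iff', Nat.mod_eq_of_lt s.2, Nat.mod_eq_of_lt s'.2] at h8
  exact Fin.ext h8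

/-- The bounded model of a permutation. -/
theorem cyc_model [Nonempty Λ] (K : ℕ) (hK : 0 < K) :
    ∃ (q : ℕ) (_ : 0 < q) (_ : q ≤ K ^ 2) (ρ : Equiv.Perm (Fin q)) (φ : Fin K → Λ → Fin q)
      (ψ : Fin K → Fin q → Λ),
      (∀ a r r', φ r (τ a) ≠ ρ (φ r a) → φ r' (τ a) ≠ ρ (φ r' a) → r = r') ∧
      (∀ b s s', ψ s (ρ b) ≠ τ (ψ s b) → ψ s' (ρ b) ≠ τ (ψ s' b) → s = s') := by
  classical
  obtain ⟨f, hf⟩ := model_inj τ K
  have : Finite (Model τ K) := Finite.of_injective f hf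
  have hne : Nonempty (Model τ K) := ⟨⟨⟨K, hK, le_rfl, Or.inl rfl⟩, 0⟩⟩
  set e := Finite.equivFin (Model τ K) with he
  obtain ⟨a0⟩ := ‹Nonempty Λ›
  set rep : Λ → Λ := fun a => Quotient.out (Quotient.mk (Equiv.Perm.SameCycle.setoid τ) a) with hrep
  have hrep1 : ∀ a, ∃ i : ℤ, (τ ^ i) (rep a) = a := fun a =>
    Quotient.mk_out (s := Equiv.Perm.SameCycle.setoid τ) a
  have hrep2 : ∀ a, rep (τ a) = rep a := by
    intro a
    have h1 : (Quotient.mk (Equiv.Perm.SameCycle.setoid τ) (τ a)) =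
        Quotient.mk (Equiv.Perm.SameCycle.setoid τ) a :=
      Quotient.sound (s := Equiv.Perm.SameCycle.setoid τ)
        (Equiv.Perm.sameCycle_apply_left.2 (Equiv.Perm.SameCycle.refl τ a))
    rw [hrep]
    beta_reduce
    rw [h1]
  choose idx hidx using hrep1
  have hstep : ∀ a, (per τ (rep a) : ℤ) ∣ idx (τ a) - (idx a + 1) := by
    intro a
    refine dvd_of_zpow τ _ _ _ ?_
    have h1 := hidx (τ a)
    rw [hrep2] at h1
    rw [h1, add_comm, zpow_one_add, Equiv.Perm.mul_apply, hidx]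
  refine ⟨Nat.card (Model τ K), Nat.card_pos, ?_, (e.symm.trans (rho τ K)).trans e,
    fun r a => e (fwd τ K hK (rep a) (idx a) r), fun s b => bwd τ K a0 s (e.symm b), ?_, ?_⟩
  · have h1 := Nat.card_le_card_of_injective f hf
    rw [Nat.card_prod, Nat.card_fin] at h1
    rw [pow_two]
    exact h1
  · intro a r r' hr hr'
    refine fwd_bad τ K hK (rep a) (idx a) (idx (τ a)) (hstep a) r r' ?_ ?_
    · intro h
      apply hr
      show e (fwd τ K hK (rep (τ a)) (idx (τ a)) r) =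
        e (rho τ K (e.symm (e (fwd τ K hK (rep a) (idx a) r))))
      rw [hrep2, h, Equiv.symm_apply_apply]
    · intro h
      apply hr'
      show e (fwd τ K hK (rep (τ a)) (idx (τ a)) r') =
        e (rho τ K (e.symm (e (fwd τ K hK (rep a) (idx a) r'))))
      rw [hrep2, h, Equiv.symm_apply_apply]
  · intro b s s' hs hs'
    refine bwd_bad τ K a0 s s' (e.symm b) ?_ ?_
    · intro h
      apply hs
      show bwd τ K a0 s (e.symm (e (rho τ K (e.symm b)))) = τ (bwd τ K a0 s (e.symm b))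
      rw [Equiv.symm_apply_apply, h]
    · intro h
      apply hs'
      show bwd τ K a0 s' (e.symm (e (rho τ K (e.symm b)))) = τ (bwd τ K a0 s' (e.symm b))
      rw [Equiv.symm_apply_apply, h]

end cyc

end Pool.Agent.P325f1f.Dich
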