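import Pool.Agent.Lib.P325f1f.Dich.Prod

/-!
# A fourth moment bound for functions of low influence
-/

set_option autoImplicit false
set_option linter.unusedSectionVars false

open Finset
open scoped BigOperators

namespace Pool.Agent.P325f1f.Dich

variable {X : Type} [Fintype X] [DecidableEq X] {o : X}
variable {Λ : Type} [Fintype Λ] [DecidableEq Λ]

/-- Partially damped coefficients. -/
noncomputable def part (o : X) (c : (Λ → X) → ℝ) (A S : Finset Λ) (α : Λ → X) : ℝ :=
  if S ⊆ supp o α then (1 / 2) ^ (supp o α \ A).card * c α else 0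

/-- The interpolating fourth moments. -/
noncomputable def MM (Φ : Sys X o) (c : (Λ → X) → ℝ) (A S : Finset Λ) : ℝ :=
  𝔼 x, avg (A \ S) (fun x => ofCoef Φ (part o c A S) x ^ 2) x ^ 2

theorem part_eq_of_eq {c : (Λ → X) → ℝ} {A S : Finset Λ} {i : Λ} {α : Λ → X} (h : α i = o) :
    part o c (insert i A) (insert i S) α = 0 := by
  rw [part, if_neg]
  intro h1
  exact mem_supp.1 (h1 (mem_insert_self i S)) h

theorem part_eq_add {c : (Λ → X) → ℝ} {A S : Finset Λ} {i : Λ} (hi : i ∉ A) (α : Λ → X) :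
    part o c A S α = (if α i = o then part o c A S α else 0) +
      (1 / 2) * part o c (insert i A) (insert i S) α := by
  by_cases h : α i = o
  · rw [if_pos h, part_eq_of_eq h]
    ring
  · rw [if_neg h, zero_add, part, part]
    have hs : insert i S ⊆ supp o α ↔ S ⊆ supp o α := by
      rw [Finset.insert_subset_iff]
      exact ⟨fun h => h.2, fun h' => ⟨mem_supp.2 h, h'⟩⟩
    by_cases hS : S ⊆ supp o α
    · rw [if_pos hS, if_pos (hs.2 hS)]
      have h1 : supp o α \ A = insert i (supp o α \ insert i A) := by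
        ext j
        simp only [mem_sdiff, mem_insert]
        by_cases hj : j = i
        · subst hj
          simp [mem_supp.2 h, hi]
        · simp [hj]
      rw [h1, Finset.card_insert_of_notMem (by simp), pow_succ]
      ring
    · rw [if_neg hS, if_neg (fun h' => hS (hs.1 h')), mul_zero]

theorem part_insert_eq_add {c : (Λ → X) → ℝ} {A S : Finset Λ} {i : Λ} (hi : i ∉ A) (α : Λ → X) :
    part o c (insert i A) S α = (if α i = o then part o c A S α else 0) +
      part o c (insert i A) (insert i S) α := by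
  by_cases h : α i = o
  · rw [if_pos h, part_eq_of_eq h, add_zero, part, part]
    have h1 : supp o α \ insert i A = supp o α \ A := by
      ext j
      simp only [mem_sdiff, mem_insert]
      by_cases hj : j = i
      · subst hj
        simp [mem_supp, h]
      · simp [hj]
    rw [h1]
  · rw [if_neg h, zero_add, part, part]
    have hs : insert i S ⊆ supp o α ↔ S ⊆ supp o α := by
      rw [Finset.insert_subset_iff]
      exact ⟨fun h => h.2, fun h' => ⟨mem_supp.2 h, h'⟩⟩
    by_cases hS : S ⊆ supp o α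
    · rw [if_pos hS, if_pos (hs.2 hS)]
    · rw [if_neg hS, if_neg (fun h' => hS (hs.1 h'))]

theorem ofCoef_add (Φ : Sys X o) (c d : (Λ → X) → ℝ) (x : Λ → X) :
    ofCoef Φ (fun α => c α + d α) x = ofCoef Φ c x + ofCoef Φ d x := by
  unfold ofCoef
  rw [← Finset.sum_add_distrib]
  exact Finset.sum_congr rfl (fun α _ => by ring)

theorem ofCoef_smul (Φ : Sys X o) (a : ℝ) (c : (Λ → X) → ℝ) (x : Λ → X) :
    ofCoef Φ (fun α => a * c α) x = a * ofCoef Φ c x := by
  unfold ofCoef
  rw [Finset.mul_sum]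
  exact Finset.sum_congr rfl (fun α _ => by ring)

theorem ofCoef_congr (Φ : Sys X o) {c d : (Λ → X) → ℝ} (h : ∀ α, c α = d α) :
    ofCoef Φ c = ofCoef Φ d := by
  have : c = d := funext h
  rw [this]

theorem free_ofCoef (Φ : Sys X o) (i : Λ) (c : (Λ → X) → ℝ) :
    Free i (ofCoef Φ (fun α => if α i = o then c α else 0)) := by
  intro x y h
  unfold ofCoef
  refine Finset.sum_congr rfl (fun α _ => ?_)
  beta_reduce
  by_cases hα : α i = o
  · rw [if_pos hα]
    congr 1
    rw [Φ.pi_φ, Φ.pi_φ]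
    refine Finset.prod_congr rfl (fun j _ => ?_)
    by_cases hj : j = i
    · subst hj
      rw [hα, Φ.one, Φ.one]
    · rw [h j hj]
  · rw [if_neg hα, zero_mul, zero_mul]

theorem point (p R Q : ℝ) (hp : 0 ≤ p) (hQ : 0 ≤ Q) (h : R ^ 2 ≤ p * Q) :
    (p + R + Q / 4) ^ 2 ≤ p ^ 2 + 2 * (p * R) + 2 * (p * Q) + Q ^ 2 := by
  have h1 : R ≤ p + Q / 4 := by
    apply le_of_sq_le_sq₀ _ (by positivity)
    nlinarith [sq_nonneg (p - Q / 4)]
  have h2 : R * Q ≤ (p + Q / 4) * Q := mul_le_mul_of_nonneg_right h1 hQ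
  nlinarith [mul_nonneg hp hQ, sq_nonneg Q]
where
  le_of_sq_le_sq₀ {a b : ℝ} (h : a ^ 2 ≤ b ^ 2) (hb : 0 ≤ b) : a ≤ b := by
    by_contra hlt
    push Not at hlt
    nlinarith

theorem MM_step (Φ : Sys X o) (c : (Λ → X) → ℝ) {A S : Finset Λ} {i : Λ} (hi : i ∉ A)
    (hS : S ⊆ A) : MM Φ c A S ≤ MM Φ c (insert i A) S + MM Φ c (insert i A) (insert i S) := by
  have hne : Nonempty X := ⟨o⟩
  have hiS : i ∉ S := fun h => hi (hS h)
  set B : Finset Λ := A \ S with hB
  have hB1 : insert i A \ S = insert i B := by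
    ext j
    simp only [hB, mem_sdiff, mem_insert]
    by_cases hj : j = i
    · subst hj
      simp [hiS]
    · simp [hj]
  have hB2 : insert i A \ insert i S = B := by
    ext j
    simp only [hB, mem_sdiff, mem_insert]
    by_cases hj : j = i
    · subst hj
      simp [hi]
    · simp [hj]
  set g0 : (Λ → X) → ℝ := ofCoef Φ (fun α => if α i = o then part o c A S α else 0) with hg0
  set g1 : (Λ → X) → ℝ := ofCoef Φ (part o c (insert i A) (insert i S)) with hg1
  have e1 : ofCoef Φ (part o c A S) = fun x => g0 x + (1 / 2) * g1 x := by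
    funext x
    rw [ofCoef_congr Φ (part_eq_add (o := o) (c := c) (S := S) hi), ofCoef_add, ofCoef_smul]
  have e2 : ofCoef Φ (part o c (insert i A) S) = fun x => g0 x + g1 x := by
    funext x
    rw [ofCoef_congr Φ (part_insert_eq_add (o := o) (c := c) (S := S) hi), ofCoef_add]
  have f0 : Free i g0 := free_ofCoef Φ i _
  have a1 : ∀ x, avg {i} g1 x = 0 := by
    intro x
    rw [hg1, avg_ofCoef]
    unfold ofCoef
    apply Finset.sum_eq_zero
    intro α _
    beta_reduce
    by_cases h : α i = o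
    · rw [part_eq_of_eq h]
      simp
    · rw [if_neg, zero_mul]
      rw [Finset.disjoint_singleton_left, mem_supp]
      exact fun h' => h' h
  set p : (Λ → X) → ℝ := avg B (fun x => g0 x ^ 2) with hp
  set R : (Λ → X) → ℝ := avg B (fun x => g0 x * g1 x) with hR
  set Q : (Λ → X) → ℝ := avg B (fun x => g1 x ^ 2) with hQ
  have hp0 : ∀ x, 0 ≤ p x := avg_nonneg B (fun x => sq_nonneg _)
  have hQ0 : ∀ x, 0 ≤ Q x := avg_nonneg B (fun x => sq_nonneg _)
  have hRQ : ∀ x, R x ^ 2 ≤ p x * Q x := avg_sq_le B g0 g1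
  have fp : Free i p := by
    apply Free.avg
    have := f0.mul f0
    intro x y h
    have h1 := this x y h
    show g0 x ^ 2 = g0 y ^ 2
    rw [pow_two, pow_two]
    exact h1
  -- the average of `R` over the coordinate `i`
  have aR : ∀ x, avg {i} R x = 0 := by
    intro x
    rw [hR, avg_avg Φ, Finset.union_comm, ← avg_avg Φ]
    have h1 : avg {i} (fun x => g0 x * g1 x) = fun _ => 0 := by
      funext y
      rw [f0.avg_mul, a1, mul_zero]
    rw [h1, avg]
    exact Finset.expect_const_zero _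
  have q1 : ∀ x, avg B (fun x => ofCoef Φ (part o c A S) x ^ 2) x = p x + R x + Q x / 4 := by
    intro x
    have h1 : (fun x => ofCoef Φ (part o c A S) x ^ 2) =
        fun x => (g0 x ^ 2 + g0 x * g1 x) + (1 / 4) * g1 x ^ 2 := by
      funext y
      rw [e1]
      ring
    rw [h1, avg_add B (fun x => g0 x ^ 2 + g0 x * g1 x), avg_add B (fun x => g0 x ^ 2), avg_smul]
    show p x + R x + 1 / 4 * Q x = _
    ring
  have q2 : ∀ x, avg (insert i B) (fun x => ofCoef Φ (part o c (insert i A) S) x ^ 2) x =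
      p x + avg {i} Q x := by
    intro x
    have h1 : (fun x => ofCoef Φ (part o c (insert i A) S) x ^ 2) =
        fun x => (g0 x ^ 2 + 2 * (g0 x * g1 x)) + g1 x ^ 2 := by
      funext y
      rw [e2]
      ring
    rw [h1, Finset.insert_eq, ← avg_avg Φ, avg_add B (fun x => g0 x ^ 2 + 2 * (g0 x * g1 x)),
      avg_add B (fun x => g0 x ^ 2), avg_smul]
    show avg {i} (fun x => (p x + 2 * R x) + Q x) x = _
    rw [avg_add {i} (fun x => p x + 2 * R x), avg_add {i} p, avg_smul]
    show avg {i} p x + 2 * avg {i} R x + avg {i} Q x = _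
    rw [aR, fp.avg_self]
    ring
  have hL : MM Φ c A S = 𝔼 x, (p x + R x + Q x / 4) ^ 2 := by
    rw [MM]
    exact Finset.expect_congr rfl (fun x _ => by rw [← hB, q1])
  have hR1 : MM Φ c (insert i A) S = 𝔼 x, (p x + avg {i} Q x) ^ 2 := by
    rw [MM, hB1]
    exact Finset.expect_congr rfl (fun x _ => by rw [q2])
  have hR2 : MM Φ c (insert i A) (insert i S) = 𝔼 x, Q x ^ 2 := by
    rw [MM, hB2]
  rw [hL, hR1, hR2]
  have s1 : (𝔼 x, (p x + R x + Q x / 4) ^ 2) ≤
      𝔼 x, (p x ^ 2 + 2 * (p x * R x) + 2 * (p x * Q x) + Q x ^ 2) :=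
    Finset.expect_le_expect (fun x _ => point _ _ _ (hp0 x) (hQ0 x) (hRQ x))
  have s2 : (𝔼 x, (p x ^ 2 + 2 * (p x * R x) + 2 * (p x * Q x) + Q x ^ 2)) =
      (𝔼 x, p x ^ 2) + 2 * (𝔼 x, p x * R x) + 2 * (𝔼 x, p x * Q x) + 𝔼 x, Q x ^ 2 := by
    rw [Finset.expect_add_distrib, Finset.expect_add_distrib, Finset.expect_add_distrib,
      ← Finset.mul_expect, ← Finset.mul_expect]
  have s3 : (𝔼 x, p x * R x) = 0 := by
    rw [← expect_avg Φ {i} (fun x => p x * R x)]
    apply Finset.expect_eq_zero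
    intro x _
    rw [fp.avg_mul, aR, mul_zero]
  have s4 : (𝔼 x, p x * Q x) = 𝔼 x, p x * avg {i} Q x := by
    rw [← expect_avg Φ {i} (fun x => p x * Q x)]
    exact Finset.expect_congr rfl (fun x _ => by rw [fp.avg_mul])
  have s5 : (𝔼 x, p x ^ 2) + 2 * (𝔼 x, p x * avg {i} Q x) ≤ 𝔼 x, (p x + avg {i} Q x) ^ 2 := by
    rw [Finset.mul_expect, ← Finset.expect_add_distrib]
    refine Finset.expect_le_expect (fun x _ => ?_)
    nlinarith [sq_nonneg (avg {i} Q x)]
  rw [s2, s3, s4] at s1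
  linarith

theorem MM_nonneg (Φ : Sys X o) (c : (Λ → X) → ℝ) (A S : Finset Λ) : 0 ≤ MM Φ c A S :=
  Finset.expect_nonneg (fun _ _ => sq_nonneg _)

theorem MM_iter (Φ : Sys X o) (c : (Λ → X) → ℝ) (A : Finset Λ) :
    MM Φ c ∅ ∅ ≤ ∑ S ∈ A.powerset, MM Φ c A S := by
  induction A using Finset.induction_on with
  | empty => simp
  | insert i A hi ih =>
    rw [Finset.sum_powerset_insert hi, ← Finset.sum_add_distrib]
    refine ih.trans (Finset.sum_le_sum (fun S hS => ?_))
    exact MM_step Φ c hi (Finset.mem_powerset.1 hS)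

theorem MM_univ (Φ : Sys X o) (c : (Λ → X) → ℝ) (S : Finset Λ) :
    MM Φ c univ S ≤ (Fintype.card X : ℝ) ^ S.card *
      (∑ α with S ⊆ supp o α, c α ^ 2) ^ 2 := by
  set F : (Λ → X) → ℝ := fun x => ofCoef Φ (part o c univ S) x ^ 2 with hF
  have hF0 : ∀ x, 0 ≤ F x := fun x => sq_nonneg _
  have hEF : (𝔼 x, F x) = ∑ α with S ⊆ supp o α, c α ^ 2 := by
    rw [hF, (Φ.pi Λ).parseval_sq, Finset.sum_filter]
    refine Finset.sum_congr rfl (fun α _ => ?_)
    have h1 : (Φ.pi Λ).coef (ofCoef Φ (part o c univ S)) α = part o c univ S α :=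
      (Φ.pi Λ).coef_ofCoef _ α
    have h5 : supp o α \ univ = ∅ := Finset.sdiff_eq_empty_iff_subset.2 (subset_univ _)
    rw [h1, part, h5]
    split_ifs
    · simp
    · simp
  have h1 : ∀ x, avg (univ \ S) F x ≤ (Fintype.card X : ℝ) ^ S.card * 𝔼 x, F x := by
    intro x
    have h2 := avg_le_pow_mul Φ S (avg_nonneg (univ \ S) hF0) x
    rw [avg_avg Φ, Finset.union_sdiff_of_subset (subset_univ S)] at h2
    have h3 : avg univ F x = 𝔼 x, F x := by
      rw [avg]
      exact Finset.expect_congr rfl (fun z _ => by rw [Finset.piecewise_univ])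
    rwa [h3] at h2
  have h2 : MM Φ c univ S ≤ 𝔼 x, ((Fintype.card X : ℝ) ^ S.card * 𝔼 x, F x) *
      avg (univ \ S) F x := by
    refine Finset.expect_le_expect (fun x _ => ?_)
    rw [pow_two]
    exact mul_le_mul_of_nonneg_right (h1 x) (avg_nonneg _ hF0 x)
  rw [← Finset.mul_expect, expect_avg Φ, hEF] at h2
  calc MM Φ c univ S ≤ _ := h2
    _ = _ := by ring

theorem fourth (Φ : Sys X o) (c : (Λ → X) → ℝ) (D : ℕ) (τ : ℝ)
    (hD : ∀ α, c α ≠ 0 → (supp o α).card ≤ D) (hτ0 : 0 ≤ τ)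
    (hτ : ∀ i, ∑ α with α i ≠ o, c α ^ 2 ≤ τ) :
    (𝔼 x, ofCoef Φ (fun α => (1 / 2) ^ (supp o α).card * c α) x ^ 4) ≤
      (∑ α, c α ^ 2) ^ 2 + (1 + Fintype.card X : ℝ) ^ D * τ * ∑ α, c α ^ 2 := by
  have hn := Φ.card_pos'
  have h0 : (𝔼 x, ofCoef Φ (fun α => (1 / 2) ^ (supp o α).card * c α) x ^ 4) = MM Φ c ∅ ∅ := by
    rw [MM]
    refine Finset.expect_congr rfl (fun x _ => ?_)
    have h1 : avg (∅ \ ∅ : Finset Λ) (fun x => ofCoef Φ (part o c ∅ ∅) x ^ 2) x =
        ofCoef Φ (part o c ∅ ∅) x ^ 2 := by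
      rw [Finset.sdiff_empty, avg]
      have hne : Nonempty X := ⟨o⟩
      have h2 : ∀ z : Λ → X, (∅ : Finset Λ).piecewise z x = x := fun z => Finset.piecewise_empty _ _
      simp_rw [h2]
      exact Fintype.expect_const _
    rw [h1, ← pow_mul]
    congr 2
    funext α
    rw [part, if_pos (Finset.empty_subset _), Finset.sdiff_empty]
  rw [h0]
  refine (MM_iter Φ c univ).trans ?_
  rw [Finset.powerset_univ]
  have h1 : ∀ S : Finset Λ, MM Φ c univ S ≤ (if S = ∅ then (∑ α, c α ^ 2) ^ 2 else 0) +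
      τ * ∑ α, (if S ⊆ supp o α then (Fintype.card X : ℝ) ^ S.card * c α ^ 2 else 0) := by
    intro S
    have h2 := MM_univ Φ c S
    have hs : (∑ α, (if S ⊆ supp o α then (Fintype.card X : ℝ) ^ S.card * c α ^ 2 else 0)) =
        (Fintype.card X : ℝ) ^ S.card * ∑ α with S ⊆ supp o α, c α ^ 2 := by
      rw [Finset.sum_filter, Finset.mul_sum]
      exact Finset.sum_congr rfl (fun α _ => by split_ifs <;> simp)
    have hs0 : 0 ≤ ∑ α with S ⊆ supp o α, c α ^ 2 := Finset.sum_nonneg (fun _ _ => sq_nonneg _)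
    rw [hs]
    rcases Finset.eq_empty_or_nonempty S with h | ⟨i, hi⟩
    · rw [if_pos h]
      subst h
      have h3 : (∑ α with (∅ : Finset Λ) ⊆ supp o α, c α ^ 2) = ∑ α, c α ^ 2 := by
        simp
      rw [h3] at h2 ⊢
      simp only [card_empty, pow_zero, one_mul] at h2 ⊢
      have h5 : 0 ≤ τ * ∑ α, c α ^ 2 :=
        mul_nonneg hτ0 (Finset.sum_nonneg (fun _ _ => sq_nonneg _))
      linarith
    · rw [if_neg (Finset.ne_empty_of_mem hi), zero_add]
      have h3 : (∑ α with S ⊆ supp o α, c α ^ 2) ≤ τ := by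
        refine le_trans (Finset.sum_le_sum_of_subset_of_nonneg ?_ (fun _ _ _ => sq_nonneg _)) (hτ i)
        intro α hα
        rw [Finset.mem_filter] at hα ⊢
        exact ⟨hα.1, mem_supp.1 (hα.2 hi)⟩
      refine h2.trans ?_
      have h4 : (Fintype.card X : ℝ) ^ S.card * (∑ α with S ⊆ supp o α, c α ^ 2) ^ 2 =
          (∑ α with S ⊆ supp o α, c α ^ 2) * ((Fintype.card X : ℝ) ^ S.card *
            ∑ α with S ⊆ supp o α, c α ^ 2) := by ring
      rw [h4]
      exact mul_le_mul_of_nonneg_right h3 (mul_nonneg (pow_nonneg hn.le _) hs0)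
  refine (Finset.sum_le_sum (fun S _ => h1 S)).trans ?_
  rw [Finset.sum_add_distrib, Finset.sum_ite_eq' univ ∅, if_pos (mem_univ _), ← Finset.mul_sum,
    Finset.sum_comm]
  have h2 : (∑ α, ∑ S : Finset Λ, (if S ⊆ supp o α then
      (Fintype.card X : ℝ) ^ S.card * c α ^ 2 else 0)) ≤
      (1 + Fintype.card X : ℝ) ^ D * ∑ α, c α ^ 2 := by
    rw [Finset.mul_sum]
    refine Finset.sum_le_sum (fun α _ => ?_)
    have h3 : (∑ S : Finset Λ, (if S ⊆ supp o α then
        (Fintype.card X : ℝ) ^ S.card * c α ^ 2 else 0)) =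
        (1 + Fintype.card X : ℝ) ^ (supp o α).card * c α ^ 2 := by
      have h4 := Finset.sum_pow_mul_eq_add_pow (Fintype.card X : ℝ) 1 (supp o α)
      simp only [one_pow, mul_one] at h4
      rw [add_comm (1 : ℝ), ← h4, Finset.sum_mul, ← Finset.sum_filter]
      refine Finset.sum_congr ?_ (fun _ _ => rfl)
      ext S
      simp
    rw [h3]
    by_cases hc : c α = 0
    · rw [hc]; simp
    · refine mul_le_mul_of_nonneg_right ?_ (sq_nonneg _)
      exact pow_le_pow_right₀ (by linarith) (hD α hc)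
  have h3 := mul_le_mul_of_nonneg_left h2 hτ0
  linarith

end Pool.Agent.P325f1f.Dich
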