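import Pool.Agent.Lib.P325f1f.Dich.Stab

/-!
# Two partitions of unity without a common influential coordinate: the light labels
-/

set_option autoImplicit false
set_option linter.unusedSectionVars false

open Finset
open scoped BigOperators

namespace Pool.Agent.P325f1f.Dich

variable {X : Type} [Fintype X] [DecidableEq X] {o : X}
variable {Λ : Type} [Fintype Λ] [DecidableEq Λ] {Ω : Type} [Fintype Ω]

/-- The truncated influence of the coordinate `i`, summed over `ω`. -/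
noncomputable def JJ (Φ : Sys X o) (D : ℕ) (h : Ω → (Λ → X) → ℝ) (i : Λ) : ℝ :=
  ∑ ω, ∑ α with α i ≠ o ∧ (supp o α).card ≤ D, (Φ.pi Λ).coef (h ω) α ^ 2

theorem JJ_nonneg (Φ : Sys X o) (D : ℕ) (h : Ω → (Λ → X) → ℝ) (i : Λ) : 0 ≤ JJ Φ D h i :=
  Finset.sum_nonneg (fun _ _ => Finset.sum_nonneg (fun _ _ => sq_nonneg _))

theorem le_one_of_sum {h : Ω → (Λ → X) → ℝ} (h0 : ∀ ω x, 0 ≤ h ω x) (hs : ∀ x, ∑ ω, h ω x = 1)
    (ω : Ω) (x : Λ → X) : h ω x ≤ 1 := by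
  rw [← hs x]
  exact Finset.single_le_sum (f := fun ω => h ω x) (fun ω _ => h0 ω x) (mem_univ ω)

theorem sum_expect (_Φ : Sys X o) {h : Ω → (Λ → X) → ℝ} (hs : ∀ x, ∑ ω, h ω x = 1) :
    ∑ ω, (𝔼 x, h ω x) = 1 := by
  have hne : Nonempty X := ⟨o⟩
  rw [← Finset.expect_sum_comm]
  simp_rw [hs]
  exact Fintype.expect_const 1

theorem sum_sum_sq_le (Φ : Sys X o) {h : Ω → (Λ → X) → ℝ} (h0 : ∀ ω x, 0 ≤ h ω x)
    (hs : ∀ x, ∑ ω, h ω x = 1) : ∑ ω, ∑ α, (Φ.pi Λ).coef (h ω) α ^ 2 ≤ 1 := by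
  rw [← sum_expect Φ hs]
  refine Finset.sum_le_sum (fun ω _ => ?_)
  rw [← (Φ.pi Λ).parseval_sq]
  refine Finset.expect_le_expect (fun x _ => ?_)
  nlinarith [h0 ω x, le_one_of_sum h0 hs ω x]

theorem sum_JJ_le (Φ : Sys X o) (D : ℕ) {h : Ω → (Λ → X) → ℝ} (h0 : ∀ ω x, 0 ≤ h ω x)
    (hs : ∀ x, ∑ ω, h ω x = 1) : ∑ i, JJ Φ D h i ≤ D := by
  unfold JJ
  rw [Finset.sum_comm]
  have h1 : ∀ ω, (∑ i, ∑ α with α i ≠ o ∧ (supp o α).card ≤ D, (Φ.pi Λ).coef (h ω) α ^ 2) ≤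
      D * ∑ α, (Φ.pi Λ).coef (h ω) α ^ 2 := by
    intro ω
    simp_rw [Finset.sum_filter]
    rw [Finset.sum_comm, Finset.mul_sum]
    refine Finset.sum_le_sum (fun α _ => ?_)
    by_cases hD : (supp o α).card ≤ D
    · have h2 : (∑ i, (if α i ≠ o ∧ (supp o α).card ≤ D then (Φ.pi Λ).coef (h ω) α ^ 2 else 0)) =
          (supp o α).card * (Φ.pi Λ).coef (h ω) α ^ 2 := by
        rw [← Finset.sum_filter, Finset.sum_const, nsmul_eq_mul]
        congr 3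
        ext i
        simp only [mem_filter, mem_univ, true_and, mem_supp]
        exact ⟨fun h => h.1, fun h => ⟨h, hD⟩⟩
      rw [h2]
      exact mul_le_mul_of_nonneg_right (by exact_mod_cast hD) (sq_nonneg _)
    · have h2 : (∑ i, (if α i ≠ o ∧ (supp o α).card ≤ D then (Φ.pi Λ).coef (h ω) α ^ 2 else 0)) =
          0 := by
        apply Finset.sum_eq_zero
        intro i _
        rw [if_neg (fun h => hD h.2)]
      rw [h2]
      positivity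
  refine (Finset.sum_le_sum (fun ω _ => h1 ω)).trans ?_
  rw [← Finset.mul_sum]
  have h3 := sum_sum_sq_le Φ h0 hs
  calc (D : ℝ) * ∑ ω, ∑ α, (Φ.pi Λ).coef (h ω) α ^ 2 ≤ D * 1 :=
        mul_le_mul_of_nonneg_left h3 (Nat.cast_nonneg D)
    _ = D := mul_one _

theorem card_big (Φ : Sys X o) (D : ℕ) {h : Ω → (Λ → X) → ℝ} (h0 : ∀ ω x, 0 ≤ h ω x)
    (hs : ∀ x, ∑ ω, h ω x = 1) {τ : ℝ} (hτ : 0 < τ) :
    ((univ.filter (fun i => τ ≤ JJ Φ D h i)).card : ℝ) ≤ D / τ := by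
  rw [le_div_iff₀ hτ]
  have h1 : ((univ.filter (fun i => τ ≤ JJ Φ D h i)).card : ℝ) * τ ≤
      ∑ i ∈ univ.filter (fun i => τ ≤ JJ Φ D h i), JJ Φ D h i := by
    rw [← nsmul_eq_mul, ← Finset.sum_const]
    exact Finset.sum_le_sum (fun i hi => (Finset.mem_filter.1 hi).2)
  refine h1.trans (le_trans ?_ (sum_JJ_le Φ D h0 hs))
  exact Finset.sum_le_sum_of_subset_of_nonneg (Finset.filter_subset _ _)
    (fun i _ _ => JJ_nonneg Φ D h i)

theorem err (Φ : Sys X o) (D : ℕ) {g : Ω → (Λ → X) → ℝ} (g0 : ∀ ω x, 0 ≤ g ω x)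
    (gs : ∀ x, ∑ ω, g ω x = 1) (A : Finset Λ) (ρ : ℝ) (hρ0 : 0 ≤ ρ) (hρ1 : ρ ≤ 1) :
    ∑ ω, ∑ α, (if Disjoint A (supp o α) then 0 else
      ρ ^ (2 * (supp o α).card) * (Φ.pi Λ).coef (g ω) α ^ 2) ≤
      ∑ i ∈ A, JJ Φ D g i + ρ ^ (2 * D) := by
  have h1 : ∀ ω α, (if Disjoint A (supp o α) then 0 else
      ρ ^ (2 * (supp o α).card) * (Φ.pi Λ).coef (g ω) α ^ 2) ≤
      (∑ i ∈ A, if α i ≠ o ∧ (supp o α).card ≤ D then (Φ.pi Λ).coef (g ω) α ^ 2 else 0) +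
      ρ ^ (2 * D) * (Φ.pi Λ).coef (g ω) α ^ 2 := by
    intro ω α
    have n1 : 0 ≤ ∑ i ∈ A, (if α i ≠ o ∧ (supp o α).card ≤ D then
        (Φ.pi Λ).coef (g ω) α ^ 2 else 0) := by
      apply Finset.sum_nonneg
      intro i _
      split_ifs
      · exact sq_nonneg _
      · exact le_rfl
    have n2 : 0 ≤ ρ ^ (2 * D) * (Φ.pi Λ).coef (g ω) α ^ 2 :=
      mul_nonneg (pow_nonneg hρ0 _) (sq_nonneg _)
    by_cases hd : Disjoint A (supp o α)
    · rw [if_pos hd]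
      exact add_nonneg n1 n2
    · rw [if_neg hd]
      by_cases hD : (supp o α).card ≤ D
      · obtain ⟨i, hi, ho⟩ := Finset.not_disjoint_iff.1 hd
        have h2 : (Φ.pi Λ).coef (g ω) α ^ 2 ≤
            ∑ i ∈ A, if α i ≠ o ∧ (supp o α).card ≤ D then (Φ.pi Λ).coef (g ω) α ^ 2 else 0 := by
          refine le_trans (le_of_eq ?_) (Finset.single_le_sum (f := fun i =>
            if α i ≠ o ∧ (supp o α).card ≤ D then (Φ.pi Λ).coef (g ω) α ^ 2 else 0) ?_ hi)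
          · rw [if_pos ⟨mem_supp.1 ho, hD⟩]
          · intro j _
            split_ifs
            · exact sq_nonneg _
            · exact le_rfl
        have h3 : ρ ^ (2 * (supp o α).card) * (Φ.pi Λ).coef (g ω) α ^ 2 ≤
            (Φ.pi Λ).coef (g ω) α ^ 2 := by
          have := pow_le_one₀ hρ0 hρ1 (n := 2 * (supp o α).card)
          nlinarith [sq_nonneg ((Φ.pi Λ).coef (g ω) α)]
        linarith
      · have h3 : ρ ^ (2 * (supp o α).card) * (Φ.pi Λ).coef (g ω) α ^ 2 ≤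
            ρ ^ (2 * D) * (Φ.pi Λ).coef (g ω) α ^ 2 :=
          mul_le_mul_of_nonneg_right (pow_le_pow_of_le_one hρ0 hρ1 (by omega)) (sq_nonneg _)
        linarith
  refine (Finset.sum_le_sum (fun ω _ => Finset.sum_le_sum (fun α _ => h1 ω α))).trans ?_
  simp_rw [Finset.sum_add_distrib]
  refine add_le_add (le_of_eq ?_) ?_
  · unfold JJ
    simp_rw [Finset.sum_filter]
    rw [Finset.sum_comm (s := A)]
    refine Finset.sum_congr rfl (fun ω _ => ?_)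
    rw [Finset.sum_comm]
  · simp_rw [← Finset.mul_sum]
    have h3 := sum_sum_sq_le Φ g0 gs
    calc ρ ^ (2 * D) * ∑ ω, ∑ α, (Φ.pi Λ).coef (g ω) α ^ 2 ≤ ρ ^ (2 * D) * 1 :=
          mul_le_mul_of_nonneg_left h3 (pow_nonneg hρ0 _)
      _ = ρ ^ (2 * D) := mul_one _

theorem WW_avg (Φ : Sys X o) (h : (Λ → X) → ℝ) (A : Finset Λ) (ρ : ℝ) :
    WW Φ ρ (avg A h) = ∑ α, (if Disjoint A (supp o α) then
      ρ ^ (supp o α).card * (Φ.pi Λ).coef h α ^ 2 else 0) := by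
  rw [WW]
  refine Finset.sum_congr rfl (fun α _ => ?_)
  rw [coef_avg]
  split_ifs <;> simp

theorem main_term (Φ : Sys X o) (D : ℕ) {h : Ω → (Λ → X) → ℝ} (h0 : ∀ ω x, 0 ≤ h ω x)
    (hs : ∀ x, ∑ ω, h ω x = 1) (t : ℕ) (ht : 1 ≤ t) (β : ℝ) (hβ : 0 < β) (L : Finset Ω)
    (hμ : ∀ ω ∈ L, (𝔼 x, h ω x) ≤ β ^ (4 * t)) (τ : ℝ) (hτ0 : 0 < τ)
    (hD : (1 / 2) ^ D ≤ β ^ t) (hτD : (1 + Fintype.card X : ℝ) ^ D * τ ≤ 15 * β ^ (4 * t))
    (A : Finset Λ) (hA : ∀ i, i ∉ A → JJ Φ D h i ≤ τ) :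
    ∑ ω ∈ L, ∑ α, (if Disjoint A (supp o α) then
      (1 - 1 / (t : ℝ)) ^ (supp o α).card * (Φ.pi Λ).coef (h ω) α ^ 2 else 0) ≤ 3 * β := by
  have h1 : ∀ ω ∈ L, (∑ α, (if Disjoint A (supp o α) then
      (1 - 1 / (t : ℝ)) ^ (supp o α).card * (Φ.pi Λ).coef (h ω) α ^ 2 else 0)) ≤
      3 * (𝔼 x, h ω x) * β := by
    intro ω hω
    rw [← WW_avg Φ, ← expect_avg Φ A (h ω)]
    have hne : Nonempty X := ⟨o⟩
    apply stab Φ (avg A (h ω)) (avg_nonneg A (h0 ω)) _ t ht β hβ _ D τ hτ0.le _ hD hτD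
    · intro x
      have h2 := avg_mono A (le_one_of_sum h0 hs ω) x
      refine h2.trans (le_of_eq ?_)
      rw [avg]
      exact Fintype.expect_const 1
    · rw [expect_avg Φ]
      exact hμ ω hω
    · intro i
      by_cases hi : i ∈ A
      · have h2 : (∑ α with α i ≠ o ∧ (supp o α).card ≤ D,
            (Φ.pi Λ).coef (avg A (h ω)) α ^ 2) = 0 := by
          apply Finset.sum_eq_zero
          intro α hα
          rw [coef_avg, if_neg, zero_pow two_ne_zero]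
          rw [Finset.not_disjoint_iff]
          exact ⟨i, hi, mem_supp.2 (Finset.mem_filter.1 hα).2.1⟩
        rw [h2]
        exact hτ0.le
      · refine le_trans ?_ (hA i hi)
        have h2 : (∑ α with α i ≠ o ∧ (supp o α).card ≤ D,
            (Φ.pi Λ).coef (avg A (h ω)) α ^ 2) ≤
            ∑ α with α i ≠ o ∧ (supp o α).card ≤ D, (Φ.pi Λ).coef (h ω) α ^ 2 := by
          refine Finset.sum_le_sum (fun α _ => ?_)
          rw [coef_avg]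
          split_ifs
          · exact le_rfl
          · rw [zero_pow two_ne_zero]
            exact sq_nonneg _
        refine h2.trans ?_
        exact Finset.single_le_sum (f := fun ω => ∑ α with α i ≠ o ∧ (supp o α).card ≤ D,
          (Φ.pi Λ).coef (h ω) α ^ 2) (fun _ _ => Finset.sum_nonneg (fun _ _ => sq_nonneg _))
          (mem_univ ω)
  refine (Finset.sum_le_sum (fun ω hω => h1 ω hω)).trans ?_
  rw [← Finset.sum_mul, ← Finset.mul_sum]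
  have h2 : ∑ ω ∈ L, (𝔼 x, h ω x) ≤ 1 := by
    rw [← sum_expect Φ hs]
    exact Finset.sum_le_sum_of_subset_of_nonneg (Finset.subset_univ L)
      (fun ω _ _ => Finset.expect_nonneg (fun x _ => h0 ω x))
  nlinarith

/-- The contribution of the labels `ω` for which `h ω` has a small mean. -/
theorem light (Φ : Sys X o) (D : ℕ) {h g : Ω → (Λ → X) → ℝ} (h0 : ∀ ω x, 0 ≤ h ω x)
    (hs : ∀ x, ∑ ω, h ω x = 1) (g0 : ∀ ω x, 0 ≤ g ω x)
    (gs : ∀ x, ∑ ω, g ω x = 1) (t : ℕ) (ht : 1 ≤ t) (θ : ℝ) (hθ : 0 < θ) (L : Finset Ω)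
    (hμ : ∀ ω ∈ L, (𝔼 x, h ω x) ≤ (θ ^ 2) ^ (4 * t))
    (τ τ' : ℝ) (hτ0 : 0 < τ) (hτ' : τ' ≤ τ) (hτ'0 : 0 ≤ τ')
    (hD : (1 / 2) ^ D ≤ (θ ^ 2) ^ t)
    (hτD : (1 + Fintype.card X : ℝ) ^ D * τ ≤ 15 * (θ ^ 2) ^ (4 * t))
    (hsm : D / τ * τ' + (1 - 1 / (t : ℝ)) ^ (2 * D) ≤ (θ ^ 2) ^ 2 / 4)
    (hno : ∀ i, JJ Φ D h i < τ' ∨ JJ Φ D g i < τ') :
    ∑ ω ∈ L, ∑ α, (1 - 1 / (t : ℝ)) ^ (supp o α).card *
      ((Φ.pi Λ).coef (h ω) α * (Φ.pi Λ).coef (g ω) α) ≤ 2 * θ + θ ^ 2 / 2 := by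
  set ρ : ℝ := 1 - 1 / (t : ℝ) with hρ
  have ht0 : (0 : ℝ) < t := by exact_mod_cast ht
  have hρ0 : 0 ≤ ρ := by
    have : 1 / (t : ℝ) ≤ 1 := by
      rw [div_le_one ht0]
      exact_mod_cast ht
    linarith
  have hρ1 : ρ ≤ 1 := by
    have : 0 ≤ 1 / (t : ℝ) := by positivity
    linarith
  set A : Finset Λ := univ.filter (fun i => τ ≤ JJ Φ D h i) with hA
  have kA : ∑ ω, ∑ α, (if Disjoint A (supp o α) then 0 else
        ρ ^ (2 * (supp o α).card) * (Φ.pi Λ).coef (g ω) α ^ 2) ≤ (θ ^ 2) ^ 2 / 4 := by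
    refine (err Φ D g0 gs A ρ hρ0 hρ1).trans (le_trans ?_ hsm)
    refine add_le_add ?_ le_rfl
    have h1 : ∑ i ∈ A, JJ Φ D g i ≤ ∑ i ∈ A, τ' := by
      refine Finset.sum_le_sum (fun i hi => ?_)
      rw [hA, Finset.mem_filter] at hi
      rcases hno i with h2 | h2
      · linarith [hi.2]
      · exact h2.le
    rw [Finset.sum_const, nsmul_eq_mul] at h1
    refine h1.trans (mul_le_mul_of_nonneg_right ?_ hτ'0)
    rw [hA]
    exact card_big Φ D h0 hs hτ0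
  have mA := main_term Φ D h0 hs t ht (θ ^ 2) (by positivity) L hμ τ hτ0 hD hτD A (by
    intro i hi
    rw [hA, Finset.mem_filter] at hi
    push Not at hi
    exact (hi (mem_univ i)).le)
  have hs2 := sum_sum_sq_le Φ h0 hs
  have gs2 := sum_sum_sq_le Φ g0 gs
  rw [← hρ] at mA
  -- pass to the sum over `L`
  have sub : ∀ F : Ω → ℝ, (∀ ω, 0 ≤ F ω) → ∑ ω ∈ L, F ω ≤ ∑ ω, F ω := fun F hF =>
    Finset.sum_le_sum_of_subset_of_nonneg (Finset.subset_univ L) (fun ω _ _ => hF ω)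
  have kA' : ∑ ω ∈ L, ∑ α, (if Disjoint A (supp o α) then 0 else
        ρ ^ (2 * (supp o α).card) * (Φ.pi Λ).coef (g ω) α ^ 2) ≤ (θ ^ 2) ^ 2 / 4 := by
    refine (sub _ (fun ω => Finset.sum_nonneg (fun α _ => ?_))).trans kA
    split_ifs
    · exact le_rfl
    · exact mul_nonneg (pow_nonneg hρ0 _) (sq_nonneg _)
  have hs2' : ∑ ω ∈ L, ∑ α, (Φ.pi Λ).coef (h ω) α ^ 2 ≤ 1 :=
    (sub _ (fun ω => Finset.sum_nonneg (fun α _ => sq_nonneg _))).trans hs2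
  have gs2' : ∑ ω ∈ L, ∑ α, (Φ.pi Λ).coef (g ω) α ^ 2 ≤ 1 :=
    (sub _ (fun ω => Finset.sum_nonneg (fun α _ => sq_nonneg _))).trans gs2
  have pt : ∀ ω α, ρ ^ (supp o α).card * ((Φ.pi Λ).coef (h ω) α * (Φ.pi Λ).coef (g ω) α) ≤
      (θ ^ 2 / 4) * (Φ.pi Λ).coef (h ω) α ^ 2 + (θ / 2) * (Φ.pi Λ).coef (g ω) α ^ 2 +
      (1 / θ ^ 2) * (if Disjoint A (supp o α) then 0 else
        ρ ^ (2 * (supp o α).card) * (Φ.pi Λ).coef (g ω) α ^ 2) +
      (1 / (2 * θ)) * (if Disjoint A (supp o α) then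
        ρ ^ (supp o α).card * (Φ.pi Λ).coef (h ω) α ^ 2 else 0) := by
    intro ω α
    set a : ℝ := (Φ.pi Λ).coef (h ω) α
    set b : ℝ := (Φ.pi Λ).coef (g ω) α
    set r : ℝ := ρ ^ (supp o α).card with hr
    have hr0 : 0 ≤ r := pow_nonneg hρ0 _
    have hr1 : r ≤ 1 := pow_le_one₀ hρ0 hρ1
    have hr2 : ρ ^ (2 * (supp o α).card) = r ^ 2 := by rw [mul_comm, pow_mul]
    rw [hr2]
    have c1 : r * (a * b) ≤ (θ ^ 2 / 4) * a ^ 2 + (1 / θ ^ 2) * (r ^ 2 * b ^ 2) := by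
      have : 0 ≤ (1 / θ ^ 2) * ((θ ^ 2 / 2) * a - r * b) ^ 2 := by positivity
      have e : (1 / θ ^ 2) * ((θ ^ 2 / 2) * a - r * b) ^ 2 =
          (θ ^ 2 / 4) * a ^ 2 + (1 / θ ^ 2) * (r ^ 2 * b ^ 2) - r * (a * b) := by
        field_simp
        ring
      linarith
    have c3 : r * (a * b) ≤ (θ / 2) * b ^ 2 + (1 / (2 * θ)) * (r * a ^ 2) := by
      have : 0 ≤ r * ((1 / (2 * θ)) * (a - θ * b) ^ 2) := by positivity
      have e : r * ((1 / (2 * θ)) * (a - θ * b) ^ 2) =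
          r * ((θ / 2) * b ^ 2) + (1 / (2 * θ)) * (r * a ^ 2) - r * (a * b) := by
        field_simp
        ring
      have e2 : r * ((θ / 2) * b ^ 2) ≤ (θ / 2) * b ^ 2 := by
        have : 0 ≤ (θ / 2) * b ^ 2 := by positivity
        nlinarith
      linarith
    have n1 : 0 ≤ (θ ^ 2 / 4) * a ^ 2 := by positivity
    have n2 : 0 ≤ (θ / 2) * b ^ 2 := by positivity
    have n4 : 0 ≤ (1 / θ ^ 2) * (r ^ 2 * b ^ 2) := by positivity
    have n5 : 0 ≤ (1 / (2 * θ)) * (r * a ^ 2) := by positivity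
    split_ifs <;> linarith
  refine (Finset.sum_le_sum (fun ω _ => Finset.sum_le_sum (fun α _ => pt ω α))).trans ?_
  simp_rw [Finset.sum_add_distrib, ← Finset.mul_sum]
  have p1 := mul_le_mul_of_nonneg_left hs2' (by positivity : 0 ≤ θ ^ 2 / 4)
  have p2 := mul_le_mul_of_nonneg_left gs2' (by positivity : 0 ≤ θ / 2)
  have p3 := mul_le_mul_of_nonneg_left kA' (by positivity : 0 ≤ 1 / θ ^ 2)
  have p4 := mul_le_mul_of_nonneg_left mA (by positivity : 0 ≤ 1 / (2 * θ))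
  have p5 : 1 / θ ^ 2 * ((θ ^ 2) ^ 2 / 4) = θ ^ 2 / 4 := by
    field_simp
  have p6 : 1 / (2 * θ) * (3 * θ ^ 2) = 3 * θ / 2 := by
    field_simp
  rw [p5] at p3
  rw [p6] at p4
  linarith

end Pool.Agent.P325f1f.Dich
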