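import Pool.Agent.Lib.P325f1f.Dich.Basis

/-!
# Fourier expansion on a product space
-/

set_option autoImplicit false
set_option linter.unusedSectionVars false

open Finset
open scoped BigOperators

namespace Pool.Agent.P325f1f.Dich

variable {X : Type} [Fintype X] [DecidableEq X] {o : X}

namespace Sys

variable (S : Sys X o)

/-- The coefficients of `f`. -/
noncomputable def coef (f : X → ℝ) (a : X) : ℝ := 𝔼 x, f x * S.φ a x

include S in
theorem card_pos' : (0 : ℝ) < Fintype.card X := by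
  have : Nonempty X := ⟨o⟩
  exact_mod_cast Fintype.card_pos

theorem orth' (a b : X) : 𝔼 x, S.φ a x * S.φ b x = if a = b then 1 else 0 := by
  rw [Fintype.expect_eq_sum_div_card, S.orth]
  split_ifs
  · exact div_self S.card_pos'.ne'
  · exact zero_div _

theorem expand (f : X → ℝ) (x : X) : f x = ∑ a, S.coef f a * S.φ a x := by
  have h1 : ∀ a, S.coef f a * S.φ a x = 𝔼 y, f y * (S.φ a y * S.φ a x) := by
    intro a
    rw [coef, Finset.expect_mul]
    exact Finset.expect_congr rfl (fun y _ => by ring)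
  simp_rw [h1]
  rw [← Finset.expect_sum_comm]
  simp_rw [← Finset.mul_sum, S.comp]
  rw [Fintype.expect_eq_sum_div_card]
  rw [Finset.sum_eq_single x]
  · rw [if_pos rfl, mul_div_assoc, div_self S.card_pos'.ne', mul_one]
  · intro y _ hy
    rw [if_neg hy, mul_zero]
  · intro h
    exact absurd (mem_univ x) h

theorem coef_ofCoef (c : X → ℝ) (a : X) : S.coef (fun x => ∑ b, c b * S.φ b x) a = c a := by
  rw [coef]
  simp_rw [Finset.sum_mul]
  rw [Finset.expect_sum_comm]
  have h1 : ∀ b, (𝔼 x, c b * S.φ b x * S.φ a x) = if b = a then c b else 0 := by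
    intro b
    have h2 : (𝔼 x, c b * S.φ b x * S.φ a x) = c b * 𝔼 x, S.φ b x * S.φ a x := by
      rw [Finset.mul_expect]
      exact Finset.expect_congr rfl (fun y _ => by ring)
    rw [h2, S.orth']
    split_ifs <;> simp
  simp_rw [h1]
  simp

theorem parseval (f g : X → ℝ) : 𝔼 x, f x * g x = ∑ a, S.coef f a * S.coef g a := by
  have h1 : ∀ x, f x * g x = ∑ a, S.coef g a * (f x * S.φ a x) := by
    intro x
    conv_lhs => rw [S.expand g x]
    rw [Finset.mul_sum]
    exact Finset.sum_congr rfl (fun a _ => by ring)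
  simp_rw [h1]
  rw [Finset.expect_sum_comm]
  refine Finset.sum_congr rfl (fun a _ => ?_)
  rw [← Finset.mul_expect, coef, coef]
  ring

theorem parseval_sq (f : X → ℝ) : 𝔼 x, f x ^ 2 = ∑ a, S.coef f a ^ 2 := by
  simp_rw [pow_two]
  exact S.parseval f f

theorem coef_o (f : X → ℝ) : S.coef f o = 𝔼 x, f x := by
  rw [coef]
  simp_rw [S.one, mul_one]

end Sys

section Prod

variable {Λ : Type} [Fintype Λ] [DecidableEq Λ]

omit [DecidableEq X] in
theorem expect_prod (h : Λ → X → ℝ) :
    𝔼 z : Λ → X, ∏ i, h i (z i) = ∏ i, 𝔼 a, h i a := by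
  rw [Fintype.expect_eq_sum_div_card]
  simp_rw [Fintype.expect_eq_sum_div_card]
  rw [Finset.prod_div_distrib, Finset.prod_univ_sum, Fintype.piFinset_univ]
  simp

/-- The product system. -/
noncomputable def Sys.pi (S : Sys X o) (Λ : Type) [Fintype Λ] [DecidableEq Λ] :
    Sys (Λ → X) (fun _ => o) where
  φ α x := ∏ i, S.φ (α i) (x i)
  orth α β := by
    have h1 : ∀ x : Λ → X, (∏ i, S.φ (α i) (x i)) * (∏ i, S.φ (β i) (x i)) =
        ∏ i, (S.φ (α i) (x i) * S.φ (β i) (x i)) := fun x => Finset.prod_mul_distrib.symm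
    simp_rw [h1]
    have h2 := (Finset.prod_univ_sum (fun _ : Λ => (Finset.univ : Finset X))
      (fun i a => S.φ (α i) a * S.φ (β i) a)).symm
    rw [Fintype.piFinset_univ] at h2
    rw [h2]
    simp_rw [S.orth]
    by_cases h : α = β
    · subst h
      simp
    · rw [if_neg h]
      obtain ⟨i, hi⟩ := Function.ne_iff.1 h
      exact Finset.prod_eq_zero (mem_univ i) (if_neg hi)
  comp x y := by
    have h1 : ∀ α : Λ → X, (∏ i, S.φ (α i) (x i)) * (∏ i, S.φ (α i) (y i)) =
        ∏ i, (S.φ (α i) (x i) * S.φ (α i) (y i)) := fun x => Finset.prod_mul_distrib.symm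
    simp_rw [h1]
    have h2 := (Finset.prod_univ_sum (fun _ : Λ => (Finset.univ : Finset X))
      (fun i a => S.φ a (x i) * S.φ a (y i))).symm
    rw [Fintype.piFinset_univ] at h2
    rw [h2]
    simp_rw [S.comp]
    by_cases h : x = y
    · subst h
      simp
    · rw [if_neg h]
      obtain ⟨i, hi⟩ := Function.ne_iff.1 h
      exact Finset.prod_eq_zero (mem_univ i) (if_neg hi)
  one x := by
    simp [S.one]

theorem Sys.pi_φ (S : Sys X o) (α x : Λ → X) : (S.pi Λ).φ α x = ∏ i, S.φ (α i) (x i) := rfl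

/-- The support of an index. -/
def supp (o : X) (α : Λ → X) : Finset Λ := univ.filter (fun i => α i ≠ o)

theorem mem_supp {α : Λ → X} {i : Λ} : i ∈ supp o α ↔ α i ≠ o := by
  simp [supp]

/-- Averaging over the coordinates in `B`. -/
noncomputable def avg (B : Finset Λ) (f : (Λ → X) → ℝ) (x : Λ → X) : ℝ :=
  𝔼 z : Λ → X, f (B.piecewise z x)

omit [DecidableEq X] in
theorem avg_nonneg (B : Finset Λ) {f : (Λ → X) → ℝ} (h : ∀ x, 0 ≤ f x) (x : Λ → X) :
    0 ≤ avg B f x := Finset.expect_nonneg (fun _ _ => h _)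

omit [DecidableEq X] in
theorem avg_mono (B : Finset Λ) {f g : (Λ → X) → ℝ} (h : ∀ x, f x ≤ g x) (x : Λ → X) :
    avg B f x ≤ avg B g x := Finset.expect_le_expect (fun _ _ => h _)

omit [DecidableEq X] in
theorem avg_add (B : Finset Λ) (f g : (Λ → X) → ℝ) :
    avg B (fun x => f x + g x) = fun x => avg B f x + avg B g x := by
  funext x
  exact Finset.expect_add_distrib _ _ _

omit [DecidableEq X] in
theorem avg_smul (B : Finset Λ) (a : ℝ) (f : (Λ → X) → ℝ) :
    avg B (fun x => a * f x) = fun x => a * avg B f x := by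
  funext x
  exact (Finset.mul_expect _ _ _).symm

omit [DecidableEq X] in
theorem avg_sum {ι : Type*} (s : Finset ι) (B : Finset Λ) (f : ι → (Λ → X) → ℝ) :
    avg B (fun x => ∑ j ∈ s, f j x) = fun x => ∑ j ∈ s, avg B (f j) x := by
  funext x
  exact Finset.expect_sum_comm _ _ _

omit [DecidableEq X] in
theorem avg_sq_le (B : Finset Λ) (f g : (Λ → X) → ℝ) (x : Λ → X) :
    avg B (fun x => f x * g x) x ^ 2 ≤ avg B (fun x => f x ^ 2) x * avg B (fun x => g x ^ 2) x :=
  Finset.expect_mul_sq_le_sq_mul_sq _ _ _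

theorem avg_φ (S : Sys X o) (B : Finset Λ) (α x : Λ → X) :
    avg B ((S.pi Λ).φ α) x = if Disjoint B (supp o α) then (S.pi Λ).φ α x else 0 := by
  have h1 : ∀ z : Λ → X, (S.pi Λ).φ α (B.piecewise z x) =
      ∏ i, (if i ∈ B then S.φ (α i) (z i) else S.φ (α i) (x i)) := by
    intro z
    rw [S.pi_φ]
    refine Finset.prod_congr rfl (fun i _ => ?_)
    by_cases hi : i ∈ B
    · rw [if_pos hi, Finset.piecewise_eq_of_mem _ _ _ hi]
    · rw [if_neg hi, Finset.piecewise_eq_of_notMem _ _ _ hi]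
  rw [avg]
  simp_rw [h1]
  rw [expect_prod (fun i a => if i ∈ B then S.φ (α i) a else S.φ (α i) (x i))]
  have h2 : ∀ i, (𝔼 a, (if i ∈ B then S.φ (α i) a else S.φ (α i) (x i))) =
      if i ∈ B ∧ α i ≠ o then 0 else S.φ (α i) (x i) := by
    intro i
    have : Nonempty X := ⟨o⟩
    by_cases hi : i ∈ B
    · simp_rw [if_pos hi]
      have h3 : (𝔼 a, S.φ (α i) a) = 𝔼 a, S.φ (α i) a * S.φ o a :=
        Finset.expect_congr rfl (fun a _ => by rw [S.one, mul_one])
      rw [h3, S.orth']
      by_cases ho : α i = o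
      · rw [if_pos ho, if_neg (by simp [ho]), ho, S.one]
      · rw [if_neg ho, if_pos ⟨hi, ho⟩]
    · simp_rw [if_neg hi]
      rw [Fintype.expect_const, if_neg (fun h => hi h.1)]
  simp_rw [h2]
  by_cases hd : Disjoint B (supp o α)
  · rw [if_pos hd, S.pi_φ]
    refine Finset.prod_congr rfl (fun i _ => ?_)
    rw [if_neg]
    rintro ⟨hi, ho⟩
    exact Finset.disjoint_left.1 hd hi (mem_supp.2 ho)
  · rw [if_neg hd]
    obtain ⟨i, hi, ho⟩ := Finset.not_disjoint_iff.1 hd
    exact Finset.prod_eq_zero (mem_univ i) (if_pos ⟨hi, mem_supp.1 ho⟩)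

/-- The function with the given coefficients. -/
noncomputable def ofCoef (S : Sys X o) (c : (Λ → X) → ℝ) (x : Λ → X) : ℝ :=
  ∑ α, c α * (S.pi Λ).φ α x

theorem avg_ofCoef (S : Sys X o) (B : Finset Λ) (c : (Λ → X) → ℝ) :
    avg B (ofCoef S c) = ofCoef S (fun α => if Disjoint B (supp o α) then c α else 0) := by
  unfold ofCoef
  rw [avg_sum]
  funext x
  refine Finset.sum_congr rfl (fun α _ => ?_)
  rw [avg_smul]
  show c α * avg B ((S.pi Λ).φ α) x =
    (if Disjoint B (supp o α) then c α else 0) * (S.pi Λ).φ α x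
  rw [avg_φ]
  split_ifs <;> simp

theorem ofCoef_coef (S : Sys X o) (f : (Λ → X) → ℝ) : ofCoef S ((S.pi Λ).coef f) = f := by
  funext x
  exact ((S.pi Λ).expand f x).symm

theorem coef_avg (S : Sys X o) (B : Finset Λ) (f : (Λ → X) → ℝ) (α : Λ → X) :
    (S.pi Λ).coef (avg B f) α = if Disjoint B (supp o α) then (S.pi Λ).coef f α else 0 := by
  conv_lhs => rw [← ofCoef_coef S f]
  rw [avg_ofCoef]
  exact (S.pi Λ).coef_ofCoef _ α

theorem avg_avg (S : Sys X o) (B C : Finset Λ) (f : (Λ → X) → ℝ) :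
    avg B (avg C f) = avg (B ∪ C) f := by
  rw [← ofCoef_coef S (avg B (avg C f)), ← ofCoef_coef S (avg (B ∪ C) f)]
  congr 1
  funext α
  rw [coef_avg, coef_avg, coef_avg]
  by_cases h1 : Disjoint B (supp o α)
  · by_cases h2 : Disjoint C (supp o α)
    · rw [if_pos h1, if_pos h2, if_pos (Finset.disjoint_union_left.2 ⟨h1, h2⟩)]
    · rw [if_pos h1, if_neg h2, if_neg (fun h => h2 (Finset.disjoint_union_left.1 h).2)]
  · rw [if_neg h1, if_neg (fun h => h1 (Finset.disjoint_union_left.1 h).1)]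

theorem expect_avg (S : Sys X o) (B : Finset Λ) (f : (Λ → X) → ℝ) :
    𝔼 x, avg B f x = 𝔼 x, f x := by
  rw [← (S.pi Λ).coef_o, ← (S.pi Λ).coef_o, coef_avg, if_pos]
  rw [Finset.disjoint_left]
  intro i _ hi
  exact mem_supp.1 hi rfl

/-- `f` does not depend on the coordinate `i`. -/
def Free (i : Λ) (f : (Λ → X) → ℝ) : Prop := ∀ x y : Λ → X, (∀ j, j ≠ i → x j = y j) → f x = f y

omit [DecidableEq X] [Fintype X] in
theorem Free.mul {i : Λ} {f g : (Λ → X) → ℝ} (hf : Free i f) (hg : Free i g) :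
    Free i (fun x => f x * g x) := by
  intro x y h
  show f x * g x = f y * g y
  rw [hf x y h, hg x y h]

omit [DecidableEq X] in
theorem Free.avg {i : Λ} {f : (Λ → X) → ℝ} (hf : Free i f) (B : Finset Λ) :
    Free i (avg B f) := by
  intro x y h
  refine Finset.expect_congr rfl (fun z _ => ?_)
  apply hf
  intro j hj
  by_cases hB : j ∈ B
  · rw [Finset.piecewise_eq_of_mem _ _ _ hB, Finset.piecewise_eq_of_mem _ _ _ hB]
  · rw [Finset.piecewise_eq_of_notMem _ _ _ hB, Finset.piecewise_eq_of_notMem _ _ _ hB]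
    exact h j hj

omit [DecidableEq X] in
theorem Free.avg_mul {i : Λ} {f : (Λ → X) → ℝ} (hf : Free i f) (g : (Λ → X) → ℝ) (x : Λ → X) :
    Dich.avg {i} (fun x => f x * g x) x = f x * Dich.avg {i} g x := by
  rw [Dich.avg, Dich.avg, Finset.mul_expect]
  refine Finset.expect_congr rfl (fun z _ => ?_)
  congr 1
  apply hf
  intro j hj
  exact Finset.piecewise_eq_of_notMem _ _ _ (by simpa using hj)

omit [DecidableEq X] in
theorem Free.avg_self [Nonempty X] {i : Λ} {f : (Λ → X) → ℝ} (hf : Free i f) (x : Λ → X) :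
    Dich.avg {i} f x = f x := by
  have h := hf.avg_mul (fun _ => 1) x
  simp only [mul_one] at h
  rw [h]
  rw [Dich.avg, Fintype.expect_const, mul_one]

theorem avg_le_pow_mul (S : Sys X o) (B : Finset Λ) {f : (Λ → X) → ℝ} (hf : ∀ x, 0 ≤ f x)
    (x : Λ → X) : f x ≤ (Fintype.card X : ℝ) ^ B.card * avg B f x := by
  have hn := S.card_pos'
  have h1 : (𝔼 z : Λ → X, ∏ i, (if i ∈ B then (if z i = x i then (1 : ℝ) else 0) else 1)) =
      ((Fintype.card X : ℝ) ^ B.card)⁻¹ := by
    rw [expect_prod (fun i a => if i ∈ B then (if a = x i then (1 : ℝ) else 0) else 1)]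
    have h2 : ∀ i, (𝔼 a, (if i ∈ B then (if a = x i then (1 : ℝ) else 0) else 1)) =
        if i ∈ B then (Fintype.card X : ℝ)⁻¹ else 1 := by
      intro i
      have : Nonempty X := ⟨o⟩
      by_cases hi : i ∈ B
      · simp_rw [if_pos hi]
        rw [Fintype.expect_eq_sum_div_card]
        simp
      · simp_rw [if_neg hi]
        exact Fintype.expect_const 1
    simp_rw [h2]
    rw [Finset.prod_ite_mem, Finset.univ_inter, Finset.prod_const, inv_pow]
  have h3 : (𝔼 z : Λ → X, (∏ i, (if i ∈ B then (if z i = x i then (1 : ℝ) else 0) else 1)) * f x) ≤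
      avg B f x := by
    refine Finset.expect_le_expect (fun z _ => ?_)
    by_cases hz : ∀ i ∈ B, z i = x i
    · have h4 : B.piecewise z x = x := by
        funext i
        by_cases hi : i ∈ B
        · rw [Finset.piecewise_eq_of_mem _ _ _ hi, hz i hi]
        · rw [Finset.piecewise_eq_of_notMem _ _ _ hi]
      rw [h4]
      have h5 : (∏ i, (if i ∈ B then (if z i = x i then (1 : ℝ) else 0) else 1)) = 1 := by
        apply Finset.prod_eq_one
        intro i _
        by_cases hi : i ∈ B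
        · rw [if_pos hi, if_pos (hz i hi)]
        · rw [if_neg hi]
      rw [h5, one_mul]
    · push Not at hz
      obtain ⟨i, hi, hne⟩ := hz
      rw [Finset.prod_eq_zero (mem_univ i) (by rw [if_pos hi, if_neg hne]), zero_mul]
      exact hf _
  rw [← Finset.expect_mul, h1] at h3
  have h6 : 0 < (Fintype.card X : ℝ) ^ B.card := pow_pos hn _
  calc f x = (Fintype.card X : ℝ) ^ B.card * (((Fintype.card X : ℝ) ^ B.card)⁻¹ * f x) := by
        rw [← mul_assoc, mul_inv_cancel₀ h6.ne', one_mul]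
    _ ≤ _ := mul_le_mul_of_nonneg_left h3 h6.le

end Prod

end Pool.Agent.P325f1f.Dich
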