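import Pool.Agent.Lib.P325f1f.Dich.Four

/-!
# Small-set noise stability for functions of low influence
-/

set_option autoImplicit false
set_option linter.unusedSectionVars false

open Finset
open scoped BigOperators

namespace Pool.Agent.P325f1f.Dich

variable {X : Type} [Fintype X] [DecidableEq X] {o : X}
variable {Λ : Type} [Fintype Λ] [DecidableEq Λ]

/-- The noise stability of `h`. -/
noncomputable def WW (Φ : Sys X o) (r : ℝ) (h : (Λ → X) → ℝ) : ℝ :=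
  ∑ α, r ^ (supp o α).card * (Φ.pi Λ).coef h α ^ 2

theorem power_mean {ι : Type*} [Fintype ι] (w z : ι → ℝ) (hw : ∀ i, 0 ≤ w i) (hz : ∀ i, 0 ≤ z i)
    (t : ℕ) : (∑ i, w i * z i) ^ (t + 1) ≤ (∑ i, w i) ^ t * ∑ i, w i * z i ^ (t + 1) := by
  rcases (Finset.sum_nonneg (fun i _ => hw i) : 0 ≤ ∑ i, w i).eq_or_lt with h | h
  · have h1 : ∀ i, w i = 0 := fun i =>
      (Finset.sum_eq_zero_iff_of_nonneg (fun i _ => hw i)).1 h.symm i (mem_univ i)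
    simp [h1]
  · set T : ℝ := ∑ i, w i with hT
    have h1 := Real.pow_arith_mean_le_arith_mean_pow (s := univ) (fun i => w i / T) z
      (fun i _ => div_nonneg (hw i) h.le) (by rw [← Finset.sum_div, ← hT, div_self h.ne'])
      (fun i _ => hz i) (t + 1)
    have h2 : ∑ i, w i / T * z i = (∑ i, w i * z i) / T := by
      rw [Finset.sum_div]
      exact Finset.sum_congr rfl (fun i _ => by ring)
    have h3 : ∑ i, w i / T * z i ^ (t + 1) = (∑ i, w i * z i ^ (t + 1)) / T := by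
      rw [Finset.sum_div]
      exact Finset.sum_congr rfl (fun i _ => by ring)
    rw [h2, h3, div_pow, div_le_iff₀ (pow_pos h _)] at h1
    calc (∑ i, w i * z i) ^ (t + 1) ≤ _ := h1
      _ = T ^ t * ∑ i, w i * z i ^ (t + 1) := by
        rw [pow_succ T t]
        field_simp

theorem holder4 {P : Type} [Fintype P] (h K : P → ℝ) (h0 : ∀ x, 0 ≤ h x) (h1 : ∀ x, h x ≤ 1) :
    (𝔼 x, h x * K x) ^ 4 ≤ (𝔼 x, h x) ^ 3 * 𝔼 x, K x ^ 4 := by
  have e0 : 0 ≤ 𝔼 x, h x := Finset.expect_nonneg (fun x _ => h0 x)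
  have s : ∀ x, Real.sqrt (h x) * Real.sqrt (h x) = h x := fun x => Real.mul_self_sqrt (h0 x)
  have a1 : (𝔼 x, h x * K x) ^ 2 ≤ (𝔼 x, h x) * 𝔼 x, h x * K x ^ 2 := by
    have := Finset.expect_mul_sq_le_sq_mul_sq univ (fun x => Real.sqrt (h x))
      (fun x => Real.sqrt (h x) * K x)
    have e1 : (𝔼 x, Real.sqrt (h x) * (Real.sqrt (h x) * K x)) = 𝔼 x, h x * K x :=
      Finset.expect_congr rfl (fun x _ => by rw [← mul_assoc, s])
    have e2 : (𝔼 x, Real.sqrt (h x) ^ 2) = 𝔼 x, h x :=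
      Finset.expect_congr rfl (fun x _ => by rw [pow_two, s])
    have e3 : (𝔼 x, (Real.sqrt (h x) * K x) ^ 2) = 𝔼 x, h x * K x ^ 2 :=
      Finset.expect_congr rfl (fun x _ => by rw [mul_pow, pow_two (Real.sqrt (h x)), s])
    rwa [e1, e2, e3] at this
  have a2 : (𝔼 x, h x * K x ^ 2) ^ 2 ≤ (𝔼 x, h x) * 𝔼 x, h x * K x ^ 4 := by
    have := Finset.expect_mul_sq_le_sq_mul_sq univ (fun x => Real.sqrt (h x))
      (fun x => Real.sqrt (h x) * K x ^ 2)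
    have e1 : (𝔼 x, Real.sqrt (h x) * (Real.sqrt (h x) * K x ^ 2)) = 𝔼 x, h x * K x ^ 2 :=
      Finset.expect_congr rfl (fun x _ => by rw [← mul_assoc, s])
    have e2 : (𝔼 x, Real.sqrt (h x) ^ 2) = 𝔼 x, h x :=
      Finset.expect_congr rfl (fun x _ => by rw [pow_two, s])
    have e3 : (𝔼 x, (Real.sqrt (h x) * K x ^ 2) ^ 2) = 𝔼 x, h x * K x ^ 4 :=
      Finset.expect_congr rfl (fun x _ => by
        rw [mul_pow, pow_two (Real.sqrt (h x)), s, ← pow_mul])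
    rwa [e1, e2, e3] at this
  have a3 : (𝔼 x, h x * K x ^ 4) ≤ 𝔼 x, K x ^ 4 := by
    refine Finset.expect_le_expect (fun x _ => ?_)
    have : 0 ≤ K x ^ 4 := by positivity
    nlinarith [h1 x]
  have b0 : 0 ≤ 𝔼 x, h x * K x ^ 2 :=
    Finset.expect_nonneg (fun x _ => mul_nonneg (h0 x) (sq_nonneg _))
  calc (𝔼 x, h x * K x) ^ 4 = ((𝔼 x, h x * K x) ^ 2) ^ 2 := by ring
    _ ≤ ((𝔼 x, h x) * 𝔼 x, h x * K x ^ 2) ^ 2 := pow_le_pow_left₀ (sq_nonneg _) a1 2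
    _ = (𝔼 x, h x) ^ 2 * (𝔼 x, h x * K x ^ 2) ^ 2 := by ring
    _ ≤ (𝔼 x, h x) ^ 2 * ((𝔼 x, h x) * 𝔼 x, h x * K x ^ 4) :=
        mul_le_mul_of_nonneg_left a2 (sq_nonneg _)
    _ ≤ (𝔼 x, h x) ^ 2 * ((𝔼 x, h x) * 𝔼 x, K x ^ 4) :=
        mul_le_mul_of_nonneg_left (mul_le_mul_of_nonneg_left a3 e0) (sq_nonneg _)
    _ = _ := by ring

theorem rho_pow_le (t : ℕ) (ht : 1 ≤ t) : (1 - 1 / (t : ℝ)) ^ t ≤ 1 / 2 := by
  have ht0 : (0 : ℝ) < t := by exact_mod_cast ht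
  have h1 : 1 - 1 / (t : ℝ) ≤ Real.exp (-(1 / t)) := by
    have := Real.add_one_le_exp (-(1 / (t : ℝ)))
    linarith
  have h0 : 0 ≤ 1 - 1 / (t : ℝ) := by
    have : 1 / (t : ℝ) ≤ 1 := by
      rw [div_le_one ht0]
      exact_mod_cast ht
    linarith
  have h2 : (1 - 1 / (t : ℝ)) ^ t ≤ Real.exp (-(1 / t)) ^ t := pow_le_pow_left₀ h0 h1 t
  have h3 : Real.exp (-(1 / (t : ℝ))) ^ t = Real.exp (-1) := by
    rw [← Real.exp_nat_mul]
    congr 1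
    field_simp
  rw [h3] at h2
  have h4 : Real.exp (-1) ≤ 1 / 2 := by
    rw [Real.exp_neg, ← one_div]
    apply one_div_le_one_div_of_le (by norm_num)
    have := Real.add_one_le_exp (1 : ℝ)
    linarith
  exact h2.trans h4

theorem stab (Φ : Sys X o) (h : (Λ → X) → ℝ) (h0 : ∀ x, 0 ≤ h x) (h1 : ∀ x, h x ≤ 1)
    (t : ℕ) (ht : 1 ≤ t) (β : ℝ) (hβ : 0 < β) (hμ : (𝔼 x, h x) ≤ β ^ (4 * t))
    (D : ℕ) (τ : ℝ) (hτ0 : 0 ≤ τ)
    (hτ : ∀ i, ∑ α with α i ≠ o ∧ (supp o α).card ≤ D, (Φ.pi Λ).coef h α ^ 2 ≤ τ)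
    (hD : (1 / 2) ^ D ≤ β ^ t) (hτD : (1 + Fintype.card X : ℝ) ^ D * τ ≤ 15 * β ^ (4 * t)) :
    WW Φ (1 - 1 / (t : ℝ)) h ≤ 3 * (𝔼 x, h x) * β := by
  set μ : ℝ := 𝔼 x, h x with hμdef
  have hμ0 : 0 ≤ μ := Finset.expect_nonneg (fun x _ => h0 x)
  set c : (Λ → X) → ℝ := fun α => if (supp o α).card ≤ D then (Φ.pi Λ).coef h α else 0 with hc
  set K : (Λ → X) → ℝ := ofCoef Φ (fun α => (1 / 2) ^ (supp o α).card * c α) with hK
  have hsum : ∑ α, (Φ.pi Λ).coef h α ^ 2 ≤ μ := by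
    rw [← (Φ.pi Λ).parseval_sq]
    refine Finset.expect_le_expect (fun x _ => ?_)
    nlinarith [h0 x, h1 x]
  have hc2 : ∀ α, c α ^ 2 ≤ (Φ.pi Λ).coef h α ^ 2 := by
    intro α
    rw [hc]
    beta_reduce
    split_ifs
    · exact le_rfl
    · rw [zero_pow two_ne_zero]
      exact sq_nonneg _
  have hcsum : ∑ α, c α ^ 2 ≤ μ := (Finset.sum_le_sum (fun α _ => hc2 α)).trans hsum
  have hcsum0 : 0 ≤ ∑ α, c α ^ 2 := Finset.sum_nonneg (fun _ _ => sq_nonneg _)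
  have hV : (𝔼 x, h x * K x) = ∑ α, (1 / 2) ^ (supp o α).card * c α ^ 2 := by
    rw [(Φ.pi Λ).parseval]
    refine Finset.sum_congr rfl (fun α _ => ?_)
    have e1 : (Φ.pi Λ).coef K α = (1 / 2) ^ (supp o α).card * c α := (Φ.pi Λ).coef_ofCoef _ α
    rw [e1, hc]
    beta_reduce
    split_ifs
    · ring
    · simp
  have hK4 : (𝔼 x, K x ^ 4) ≤ (∑ α, c α ^ 2) ^ 2 +
      (1 + Fintype.card X : ℝ) ^ D * τ * ∑ α, c α ^ 2 := by
    apply fourth Φ c D τ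
    · intro α hα
      by_contra hcon
      apply hα
      rw [hc]
      beta_reduce
      rw [if_neg hcon]
    · exact hτ0
    · intro i
      refine le_trans (le_of_eq ?_) (hτ i)
      rw [Finset.sum_filter, Finset.sum_filter]
      refine Finset.sum_congr rfl (fun α _ => ?_)
      rw [hc]
      beta_reduce
      by_cases e1 : α i ≠ o
      · by_cases e2 : (supp o α).card ≤ D
        · rw [if_pos e1, if_pos e2, if_pos ⟨e1, e2⟩]
        · rw [if_pos e1, if_neg e2, if_neg (fun h => e2 h.2), zero_pow two_ne_zero]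
      · rw [if_neg e1, if_neg (fun h => e1 h.1)]
  have hK4' : (𝔼 x, K x ^ 4) ≤ μ * (16 * β ^ (4 * t)) := by
    have e1 : (∑ α, c α ^ 2) ^ 2 ≤ μ * μ := by
      rw [pow_two]
      exact mul_le_mul hcsum hcsum hcsum0 hμ0
    have e2 : (1 + Fintype.card X : ℝ) ^ D * τ * ∑ α, c α ^ 2 ≤ 15 * β ^ (4 * t) * μ :=
      mul_le_mul hτD hcsum hcsum0 (by positivity)
    have e3 : μ * μ ≤ μ * β ^ (4 * t) := mul_le_mul_of_nonneg_left hμ hμ0
    nlinarith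
  have hV4 : (𝔼 x, h x * K x) ^ 4 ≤ (2 * μ * β ^ t) ^ 4 := by
    refine (holder4 h K h0 h1).trans ?_
    have e1 : μ ^ 3 * (𝔼 x, K x ^ 4) ≤ μ ^ 3 * (μ * (16 * β ^ (4 * t))) :=
      mul_le_mul_of_nonneg_left hK4' (pow_nonneg hμ0 3)
    refine e1.trans (le_of_eq ?_)
    have e2 : β ^ (4 * t) = (β ^ t) ^ 4 := by rw [← pow_mul, mul_comm]
    rw [e2]
    ring
  have hVle : (𝔼 x, h x * K x) ≤ 2 * μ * β ^ t := by
    by_contra hlt
    push Not at hlt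
    have := pow_lt_pow_left₀ hlt (by positivity) (n := 4) (by norm_num)
    linarith
  have hhalf : WW Φ (1 / 2) h ≤ 3 * μ * β ^ t := by
    have e1 : WW Φ (1 / 2) h ≤ (∑ α, (1 / 2) ^ (supp o α).card * c α ^ 2) +
        (1 / 2) ^ D * ∑ α, (Φ.pi Λ).coef h α ^ 2 := by
      rw [WW, Finset.mul_sum, ← Finset.sum_add_distrib]
      refine Finset.sum_le_sum (fun α _ => ?_)
      rw [hc]
      beta_reduce
      by_cases e2 : (supp o α).card ≤ D
      · rw [if_pos e2]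
        have : 0 ≤ (1 / 2 : ℝ) ^ D * (Φ.pi Λ).coef h α ^ 2 := by positivity
        linarith
      · rw [if_neg e2, zero_pow two_ne_zero, mul_zero, zero_add]
        refine mul_le_mul_of_nonneg_right ?_ (sq_nonneg _)
        exact pow_le_pow_of_le_one (by norm_num) (by norm_num) (by omega)
    rw [← hV] at e1
    have e3 : (1 / 2 : ℝ) ^ D * ∑ α, (Φ.pi Λ).coef h α ^ 2 ≤ β ^ t * μ :=
      mul_le_mul hD hsum (Finset.sum_nonneg (fun _ _ => sq_nonneg _)) (by positivity)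
    nlinarith
  -- from `1/2` to `1 - 1/t`
  obtain ⟨s, rfl⟩ : ∃ s, t = s + 1 := ⟨t - 1, by omega⟩
  set ρ : ℝ := 1 - 1 / ((s + 1 : ℕ) : ℝ) with hρ
  have hρ0 : 0 ≤ ρ := by
    have ht0 : (0 : ℝ) < ((s + 1 : ℕ) : ℝ) := by exact_mod_cast Nat.succ_pos s
    have : 1 / ((s + 1 : ℕ) : ℝ) ≤ 1 := by
      rw [div_le_one ht0]
      exact_mod_cast Nat.succ_le_succ (Nat.zero_le s)
    linarith
  have hpm := power_mean (fun α => (Φ.pi Λ).coef h α ^ 2) (fun α => ρ ^ (supp o α).card)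
    (fun α => sq_nonneg _) (fun α => pow_nonneg hρ0 _) s
  have e4 : ∑ α, (Φ.pi Λ).coef h α ^ 2 * ρ ^ (supp o α).card = WW Φ ρ h := by
    rw [WW]
    exact Finset.sum_congr rfl (fun α _ => mul_comm _ _)
  have e5 : ∑ α, (Φ.pi Λ).coef h α ^ 2 * (ρ ^ (supp o α).card) ^ (s + 1) ≤ WW Φ (1 / 2) h := by
    rw [WW]
    refine Finset.sum_le_sum (fun α _ => ?_)
    rw [mul_comm]
    refine mul_le_mul_of_nonneg_right ?_ (sq_nonneg _)
    rw [← pow_mul, mul_comm, pow_mul]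
    exact pow_le_pow_left₀ (pow_nonneg hρ0 _) (rho_pow_le (s + 1) ht) _
  have hW0 : 0 ≤ WW Φ ρ h :=
    Finset.sum_nonneg (fun α _ => mul_nonneg (pow_nonneg hρ0 _) (sq_nonneg _))
  have e6 : WW Φ ρ h ^ (s + 1) ≤ μ ^ s * (3 * μ * β ^ (s + 1)) := by
    rw [e4] at hpm
    refine hpm.trans ?_
    have a1 : (∑ α, (Φ.pi Λ).coef h α ^ 2) ^ s ≤ μ ^ s :=
      pow_le_pow_left₀ (Finset.sum_nonneg (fun _ _ => sq_nonneg _)) hsum s
    have a2 : 0 ≤ ∑ α, (Φ.pi Λ).coef h α ^ 2 * (ρ ^ (supp o α).card) ^ (s + 1) :=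
      Finset.sum_nonneg (fun α _ => mul_nonneg (sq_nonneg _) (pow_nonneg (pow_nonneg hρ0 _) _))
    exact mul_le_mul a1 (e5.trans hhalf) a2 (pow_nonneg hμ0 s)
  have e7 : WW Φ ρ h ^ (s + 1) ≤ (3 * μ * β) ^ (s + 1) := by
    refine e6.trans ?_
    have a1 : μ ^ s * (3 * μ * β ^ (s + 1)) = 3 * (μ * β) ^ (s + 1) := by
      rw [mul_pow, pow_succ μ s]
      ring
    have a2 : (3 * μ * β) ^ (s + 1) = 3 ^ (s + 1) * (μ * β) ^ (s + 1) := by
      rw [← mul_pow]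
      ring
    rw [a1, a2]
    refine mul_le_mul_of_nonneg_right ?_ (pow_nonneg (mul_nonneg hμ0 hβ.le) _)
    calc (3 : ℝ) = 3 ^ 1 := (pow_one 3).symm
      _ ≤ 3 ^ (s + 1) := pow_le_pow_right₀ (by norm_num) (by omega)
  by_contra hlt
  push Not at hlt
  have := pow_lt_pow_left₀ hlt (by positivity) (n := s + 1) (by omega)
  linarith

end Pool.Agent.P325f1f.Dich
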