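import Mathlib
import Pool.Agent.Lib.P325f1f.Dich.Games
import Pool.Agent.Lib.P325f1f.Dich.Cyc

/-!
# Games with few constraint permutations

The two most frequent constraint permutations of a game with at most `d` constraint permutations
carry at least `2 / d` of the edges, and the game on these edges is equivalent, up to a factor
`1 - 1 / K` both ways, to a game on the same graph with at most `K ^ 2` labels.
-/

open Finset
open scoped BigOperators

namespace Pool.Agent.P325f1f.Dich

/-- Transfer of values along maps that are equivariant for most seeds. -/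
theorem transfer {U W A B ι : Type} [Fintype ι] [Nonempty A] (I : Game U W A ι)
    (J : Game U W B ι) (hs : J.src = I.src) (hd : J.dst = I.dst) (K : ℕ) (hK : 0 < K)
    (f g : Fin K → A → B)
    (hbad : ∀ e a s s', J.perm e (f s a) ≠ g s (I.perm e a) →
      J.perm e (f s' a) ≠ g s' (I.perm e a) → s = s') :
    (1 - 1 / (K : ℝ)) * I.value ≤ J.value := by
  classical
  have hKr : (0 : ℝ) < K := by exact_mod_cast hK
  have hρ0 : 0 ≤ 1 - 1 / (K : ℝ) := by
    have : 1 / (K : ℝ) ≤ 1 := by
      rw [div_le_one hKr]
      exact_mod_cast hK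
    linarith
  have hne : Nonempty ((U → A) × (W → A)) :=
    ⟨(fun _ => Classical.arbitrary A, fun _ => Classical.arbitrary A)⟩
  have hneK : Nonempty (Fin K) := ⟨⟨0, hK⟩⟩
  rw [Game.value, Real.mul_iSup_of_nonneg hρ0]
  refine ciSup_le ?_
  rintro ⟨x, y⟩
  have h1 : (𝔼 s : Fin K, J.satFrac (fun u => f s (x u)) (fun w => g s (y w))) ≤ J.value :=
    Finset.expect_le Finset.univ_nonempty (fun s _ => le_value J _ _)
  refine le_trans ?_ h1
  simp_rw [satFrac_eq]
  rw [Finset.expect_comm, Finset.mul_expect]
  refine Finset.expect_le_expect (fun e _ => ?_)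
  by_cases he : I.perm e (x (I.src e)) = y (I.dst e)
  · rw [if_pos he, mul_one, hs, hd, ← he]
    have h2 : ∀ s : Fin K,
        (if J.perm e (f s (x (I.src e))) = g s (I.perm e (x (I.src e))) then (1 : ℝ) else 0) =
        1 - (if J.perm e (f s (x (I.src e))) ≠ g s (I.perm e (x (I.src e)))
          then (1 : ℝ) else 0) := by
      intro s
      by_cases h : J.perm e (f s (x (I.src e))) = g s (I.perm e (x (I.src e)))
      · rw [if_pos h, if_neg (fun h' => h' h)]
        norm_num
      · rw [if_neg h, if_pos h]
        norm_num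
    rw [Finset.expect_congr rfl (fun s _ => h2 s), Finset.expect_sub_distrib,
      Fintype.expect_const]
    refine sub_le_sub_left ?_ _
    rw [Fintype.expect_eq_sum_div_card, Finset.sum_boole, Fintype.card_fin]
    rw [div_le_div_iff_of_pos_right hKr]
    have h3 : (univ.filter (fun s : Fin K =>
        J.perm e (f s (x (I.src e))) ≠ g s (I.perm e (x (I.src e))))).card ≤ 1 :=
      Finset.card_le_one.2 (fun s hs s' hs' =>
        hbad e (x (I.src e)) s s' (Finset.mem_filter.1 hs).2 (Finset.mem_filter.1 hs').2)
    exact_mod_cast h3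
  · rw [if_neg he, mul_zero]
    exact Finset.expect_nonneg (fun s _ => by split_ifs <;> norm_num)

/-- The two most frequent values of a function with at most `d` values. -/
theorem two_values {ι P : Type} [Fintype ι] [Nonempty ι] [DecidableEq P] (c : ι → P) (d : ℕ)
    (hd : 2 ≤ d) (h : (Set.range c).ncard ≤ d) :
    ∃ π π' : P, 2 * Fintype.card ι ≤ d * (univ.filter (fun e => c e = π ∨ c e = π')).card := by
  set T : Finset P := univ.image c with hT
  have hTc : T.card ≤ d := by
    have h1 : (T : Set P) = Set.range c := by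
      rw [hT, Finset.coe_image, Finset.coe_univ, Set.image_univ]
    rwa [← h1, Set.ncard_coe_finset] at h
  have hTne : T.Nonempty := Finset.univ_nonempty.image c
  set N : P → ℕ := fun π => (univ.filter (fun e => c e = π)).card with hN
  have hsum : ∑ π ∈ T, N π = Fintype.card ι := by
    rw [← Finset.card_univ, Finset.card_eq_sum_card_image c univ]
  -- the most frequent value
  obtain ⟨π, hπ, h1⟩ : ∃ π ∈ T, Fintype.card ι ≤ T.card * N π := by
    by_contra hcon
    push Not at hcon
    have h2 := Finset.sum_lt_sum_of_nonempty hTne hcon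
    rw [← Finset.mul_sum, hsum, Finset.sum_const, smul_eq_mul] at h2
    exact lt_irrefl _ h2
  have hsum' : N π + ∑ π' ∈ T.erase π, N π' = Fintype.card ι := by
    rw [Finset.add_sum_erase T N hπ, hsum]
  rcases (T.erase π).eq_empty_or_nonempty with h0 | hne
  · refine ⟨π, π, ?_⟩
    rw [h0, Finset.sum_empty, add_zero] at hsum'
    have h3 : (univ.filter (fun e => c e = π ∨ c e = π)).card = Fintype.card ι := by
      rw [← hsum', hN]
      simp only [or_self]
    rw [h3]
    exact Nat.mul_le_mul_right _ hd
  · obtain ⟨π', hπ', h2⟩ : ∃ π' ∈ T.erase π,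
        ∑ π'' ∈ T.erase π, N π'' ≤ (T.erase π).card * N π' := by
      by_contra hcon
      push Not at hcon
      have h3 := Finset.sum_lt_sum_of_nonempty hne hcon
      rw [← Finset.mul_sum, Finset.sum_const, smul_eq_mul] at h3
      exact lt_irrefl _ h3
    refine ⟨π, π', ?_⟩
    have hne' : π' ≠ π := (Finset.mem_erase.1 hπ').1
    have h3 : (univ.filter (fun e => c e = π ∨ c e = π')).card = N π + N π' := by
      classical
      rw [Finset.filter_or, Finset.card_union_of_disjoint]
      rw [Finset.disjoint_filter]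
      intro e _ ha hb
      exact hne' (hb.symm.trans ha)
    rw [h3]
    have h4 : (T.erase π).card + 1 = T.card := Finset.card_erase_add_one hπ
    have h5 : 0 < (T.erase π).card := hne.card_pos
    set m := (T.erase π).card with hm
    set R := ∑ π'' ∈ T.erase π, N π'' with hR
    rw [← h4] at h1 hTc
    have h6 : 2 * Fintype.card ι ≤ (m + 1) * (N π + N π') := by
      have h7 : m * (2 * Fintype.card ι) ≤ m * ((m + 1) * (N π + N π')) := by
        obtain ⟨k, hk⟩ : ∃ k, m = k + 1 := ⟨m - 1, by omega⟩
        rw [hk] at h1 h2 ⊢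
        rw [← hsum'] at h1 ⊢
        nlinarith [Nat.zero_le (N π), Nat.zero_le (N π'), Nat.zero_le R, Nat.zero_le k,
          Nat.mul_le_mul_left k h1, Nat.mul_le_mul_left (k + 2) h2]
      exact Nat.le_of_mul_le_mul_left h7 h5
    exact h6.trans (Nat.mul_le_mul_right _ hTc)

/-- The two most frequent constraint permutations carry `2 / d` of the edges, and the game on these
edges is a game with few labels. -/
theorem easy {U W Λ ι : Type} [Nonempty Λ] [Fintype ι] [Nonempty ι] (I : Game U W Λ ι) (d : ℕ)
    (hd : 2 ≤ d) (hI : (Set.range I.perm).ncard ≤ d) :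
    ∃ E : Finset ι, 2 * Fintype.card ι ≤ d * E.card ∧ ∀ K : ℕ, 1 ≤ K →
      ∃ (q : ℕ) (J : Game U W (Fin q) E), q ≤ K ^ 2 ∧ J.src = (I.restrict E).src ∧
        J.dst = (I.restrict E).dst ∧ (Set.range J.perm).ncard ≤ 2 ∧
        (1 - 1 / (K : ℝ)) * (I.restrict E).value ≤ J.value ∧
        (1 - 1 / (K : ℝ)) * J.value ≤ (I.restrict E).value := by
  classical
  obtain ⟨π, π', hcard⟩ := two_values I.perm d hd hI
  set E : Finset ι := univ.filter (fun e => I.perm e = π ∨ I.perm e = π') with hE
  refine ⟨E, hcard, fun K hK => ?_⟩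
  set τ : Equiv.Perm Λ := π⁻¹ * π' with hτ
  obtain ⟨q, hq0, hq, ρ, φ, ψ, hφ, hψ⟩ := cyc_model τ K hK
  have hneq : Nonempty (Fin q) := ⟨⟨0, hq0⟩⟩
  set J : Game U W (Fin q) E :=
    { src := (I.restrict E).src
      dst := (I.restrict E).dst
      perm := fun e => if I.perm e.1 = π then 1 else ρ } with hJ
  have hperm : ∀ e : E, I.perm e.1 ≠ π → I.perm e.1 = π' := by
    intro e he
    have h1 := (Finset.mem_filter.1 e.2).2
    exact h1.resolve_left he
  refine ⟨q, J, hq, rfl, rfl, ?_, ?_, ?_⟩
  · have h1 : Set.range J.perm ⊆ ({1, ρ} : Set (Equiv.Perm (Fin q))) := by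
      rintro _ ⟨e, rfl⟩
      show (if I.perm e.1 = π then 1 else ρ) ∈ _
      split_ifs
      · exact Set.mem_insert _ _
      · exact Set.mem_insert_of_mem _ rfl
    exact (Set.ncard_le_ncard h1 (Set.toFinite _)).trans (Set.ncard_insert_le _ _ |>.trans (by
      rw [Set.ncard_singleton]))
  · refine transfer (I.restrict E) J rfl rfl K hK φ (fun s a => φ s (π⁻¹ a)) ?_
    intro e a s s' h1 h2
    by_cases he : I.perm e.1 = π
    · exfalso
      apply h1
      show (if I.perm e.1 = π then (1 : Equiv.Perm (Fin q)) else ρ) (φ s a) =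
        φ s (π⁻¹ (I.perm e.1 a))
      rw [if_pos he, he, Equiv.Perm.one_apply, show π⁻¹ (π a) = a from Equiv.symm_apply_apply π a]
    · refine hφ a s s' ?_ ?_
      · intro h
        apply h1
        show (if I.perm e.1 = π then (1 : Equiv.Perm (Fin q)) else ρ) (φ s a) =
          φ s (π⁻¹ (I.perm e.1 a))
        rw [if_neg he, hperm e he]
        exact h.symm
      · intro h
        apply h2
        show (if I.perm e.1 = π then (1 : Equiv.Perm (Fin q)) else ρ) (φ s' a) =
          φ s' (π⁻¹ (I.perm e.1 a))
        rw [if_neg he, hperm e he]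
        exact h.symm
  · refine transfer J (I.restrict E) rfl rfl K hK ψ (fun s b => π (ψ s b)) ?_
    intro e b s s' h1 h2
    by_cases he : I.perm e.1 = π
    · exfalso
      apply h1
      show I.perm e.1 (ψ s b) =
        π (ψ s ((if I.perm e.1 = π then (1 : Equiv.Perm (Fin q)) else ρ) b))
      rw [if_pos he, he, Equiv.Perm.one_apply]
    · have h3 : ∀ s, ψ s (ρ b) = τ (ψ s b) → I.perm e.1 (ψ s b) =
          π (ψ s ((if I.perm e.1 = π then (1 : Equiv.Perm (Fin q)) else ρ) b)) := by
        intro s h
        rw [if_neg he, hperm e he, h, hτ, Equiv.Perm.mul_apply]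
        exact (Equiv.apply_symm_apply π _).symm
      exact hψ b s s' (fun h => h1 (h3 s h)) (fun h => h2 (h3 s' h))

end Pool.Agent.P325f1f.Dich
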